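import Pool.Agent.TH14.CC.NC

/-!
Quivers with potential (Derksen-Weyman-Zelevinsky), Caldero-Chapoton algebras
(Cerulli Irelli-Labardini-Schröer) and cluster algebras: all definitions used in the statement.

Conventions.  A path is written as a word in the arrows; the word `a₁ a₂ ⋯ a_d` stands for the
composite `a₁ ∘ a₂ ∘ ⋯ ∘ a_d`, so that `a_d` is travelled first and the source of `a_i` is the
target of `a_{i+1}`.
-/

namespace Pool.Agent.TH14.CC

open Finset

/-! ### Quivers -/

/-- A finite quiver with vertex set `Fin n`: a finite type `A` of arrows, each with a source `s`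
and a target `t`. -/
structure Quiv (n : ℕ) where
  /-- the arrows -/
  A : Type
  fin : Fintype A
  dec : DecidableEq A
  /-- the source of an arrow -/
  s : A → Fin n
  /-- the target of an arrow -/
  t : A → Fin n

attribute [instance] Quiv.fin Quiv.dec

variable {n : ℕ}

namespace Quiv

/-- A quiver is `2`-acyclic if it has no loops and no oriented `2`-cycles. -/
def TwoAcyclic (Q : Quiv n) : Prop :=
  (∀ a : Q.A, Q.s a ≠ Q.t a) ∧ ∀ a b : Q.A, ¬ (Q.s a = Q.t b ∧ Q.t a = Q.s b)

/-- `Q.IsPath w j i` says that the word `w` is a path of `Q` from the vertex `i` to the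
vertex `j`. The empty word is the trivial path at every vertex. -/
inductive IsPath (Q : Quiv n) : List Q.A → Fin n → Fin n → Prop
  | nil (i : Fin n) : IsPath Q [] i i
  | cons (a : Q.A) {w : List Q.A} {i : Fin n} : IsPath Q w (Q.s a) i → IsPath Q (a :: w) (Q.t a) i

/-- The quiver underlying the premutation at `k`: arrows not touching `k` are kept, for each pair
of an arrow `b` with source `k` and an arrow `a` with target `k` there is a new composite arrow
`[b a] : s a → t b`, and each arrow `a` touching `k` is replaced by an arrow `a*` in the opposite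
direction. -/
def premut (Q : Quiv n) (k : Fin n) : Quiv n where
  A := {a : Q.A // Q.s a ≠ k ∧ Q.t a ≠ k} ⊕
    (({b : Q.A // Q.s b = k} × {a : Q.A // Q.t a = k}) ⊕ {a : Q.A // Q.s a = k ∨ Q.t a = k})
  fin := inferInstance
  dec := inferInstance
  s := Sum.elim (fun a => Q.s a) (Sum.elim (fun p => Q.s p.2) (fun a => Q.t a))
  t := Sum.elim (fun a => Q.t a) (Sum.elim (fun p => Q.t p.1) (fun a => Q.s a))

/-- The quiver obtained from `Q` by adding, for each element `x` of `T`, an arrow
`(x, false) : u x → v x` and an arrow `(x, true) : v x → u x`. -/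
def addTwoCycles (Q : Quiv n) (T : Type) [Fintype T] [DecidableEq T] (u v : T → Fin n) :
    Quiv n where
  A := Q.A ⊕ (T × Bool)
  fin := inferInstance
  dec := inferInstance
  s := Sum.elim Q.s (fun p => if p.2 then v p.1 else u p.1)
  t := Sum.elim Q.t (fun p => if p.2 then u p.1 else v p.1)

/-- The matrix `B_Q`: the entry `(i, j)` is the number of arrows `j → i` minus the number of arrows
`i → j`. -/
def B (Q : Quiv n) : Matrix (Fin n) (Fin n) ℤ := fun i j =>
  (#{a : Q.A | Q.s a = j ∧ Q.t a = i} : ℤ) - #{a : Q.A | Q.s a = i ∧ Q.t a = j}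

end Quiv

/-! ### The completed path algebra -/

/-- The completed path algebra of `Q`: possibly infinite linear combinations of paths. The number
`c j i w` is the coefficient of the path `w` from `i` to `j`. -/
@[ext] structure PS (Q : Quiv n) where
  /-- the coefficients -/
  c : Fin n → Fin n → List Q.A → ℂ
  supp : ∀ j i w, c j i w ≠ 0 → Q.IsPath w j i

theorem isPath_append {Q : Quiv n} {u v : List Q.A} {j l i : Fin n} (h : Q.IsPath u j l)
    (h' : Q.IsPath v l i) : Q.IsPath (u ++ v) j i := by
  induction h with
  | nil => exact h'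
  | cons a _ ih => exact Quiv.IsPath.cons a (ih h')

theorem mul_supp {Q : Quiv n} (F G : PS Q) (j i : Fin n) (w : List Q.A)
    (h : (∑ l, ∑ m ∈ range (w.length + 1), F.c j l (w.take m) * G.c l i (w.drop m)) ≠ 0) :
    Q.IsPath w j i := by
  obtain ⟨l, -, hl⟩ := Finset.exists_ne_zero_of_sum_ne_zero h
  obtain ⟨m, -, hm⟩ := Finset.exists_ne_zero_of_sum_ne_zero hl
  rw [← List.take_append_drop m w]
  exact isPath_append (F.supp _ _ _ (left_ne_zero_of_mul hm)) (G.supp _ _ _ (right_ne_zero_of_mul hm))

theorem add_supp {Q : Quiv n} (F G : PS Q) (j i : Fin n) (w : List Q.A)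
    (h : F.c j i w + G.c j i w ≠ 0) : Q.IsPath w j i := by
  by_cases h1 : F.c j i w = 0
  · rw [h1, zero_add] at h; exact G.supp _ _ _ h
  · exact F.supp _ _ _ h1

theorem smul_supp {Q : Quiv n} (z : ℂ) (F : PS Q) (j i : Fin n) (w : List Q.A)
    (h : z * F.c j i w ≠ 0) : Q.IsPath w j i := F.supp _ _ _ (right_ne_zero_of_mul h)

theorem zero_supp {Q : Quiv n} (j i : Fin n) (w : List Q.A) (h : (0 : ℂ) ≠ 0) :
    Q.IsPath w j i := absurd rfl h

theorem one_supp {Q : Quiv n} (j i : Fin n) (w : List Q.A)
    (h : (if j = i ∧ w = [] then (1 : ℂ) else 0) ≠ 0) : Q.IsPath w j i := by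
  split_ifs at h with h1
  · obtain ⟨rfl, rfl⟩ := h1; exact Quiv.IsPath.nil _
  · exact absurd rfl h

theorem path_supp {Q : Quiv n} {j i : Fin n} {w : List Q.A} (hw : Q.IsPath w j i)
    (j' i' : Fin n) (w' : List Q.A)
    (h : (if j' = j ∧ i' = i ∧ w' = w then (1 : ℂ) else 0) ≠ 0) : Q.IsPath w' j' i' := by
  split_ifs at h with h1
  · obtain ⟨rfl, rfl, rfl⟩ := h1; exact hw
  · exact absurd rfl h

namespace PS

variable {Q : Quiv n}

noncomputable instance : Add (PS Q) := ⟨fun F G => ⟨fun j i w => F.c j i w + G.c j i w, add_supp F G⟩⟩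

noncomputable instance : SMul ℂ (PS Q) := ⟨fun z F => ⟨fun j i w => z * F.c j i w, smul_supp z F⟩⟩

noncomputable instance : Zero (PS Q) := ⟨⟨fun _ _ _ => 0, zero_supp⟩⟩

noncomputable instance : Neg (PS Q) := ⟨fun F => (-1 : ℂ) • F⟩

/-- The unit is the sum of the trivial paths. -/
noncomputable instance : One (PS Q) := ⟨⟨fun j i w => if j = i ∧ w = [] then 1 else 0, one_supp⟩⟩

/-- The concatenation product. -/
noncomputable instance : Mul (PS Q) :=
  ⟨fun F G => ⟨fun j i w => ∑ l, ∑ m ∈ range (w.length + 1),
    F.c j l (w.take m) * G.c l i (w.drop m), mul_supp F G⟩⟩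

theorem add_c (F G : PS Q) (j i : Fin n) (w : List Q.A) :
    (F + G).c j i w = F.c j i w + G.c j i w := rfl
theorem smul_c (z : ℂ) (F : PS Q) (j i : Fin n) (w : List Q.A) :
    (z • F).c j i w = z * F.c j i w := rfl
theorem zero_c (j i : Fin n) (w : List Q.A) : (0 : PS Q).c j i w = 0 := rfl
theorem neg_c (F : PS Q) (j i : Fin n) (w : List Q.A) : (-F).c j i w = -F.c j i w :=
  neg_one_mul _
theorem one_c (j i : Fin n) (w : List Q.A) :
    (1 : PS Q).c j i w = if j = i ∧ w = [] then 1 else 0 := rfl
theorem mul_c (F G : PS Q) (j i : Fin n) (w : List Q.A) :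
    (F * G).c j i w = ∑ l, ∑ m ∈ range (w.length + 1), F.c j l (w.take m) * G.c l i (w.drop m) :=
  rfl

theorem ext' {F G : PS Q} (h : ∀ j i w, F.c j i w = G.c j i w) : F = G :=
  PS.ext (funext fun j => funext fun i => funext fun w => h j i w)

theorem add_assoc' (F G H : PS Q) : F + G + H = F + (G + H) := ext' fun _ _ _ => add_assoc _ _ _
theorem zero_add' (F : PS Q) : 0 + F = F := ext' fun _ _ _ => zero_add _
theorem add_zero' (F : PS Q) : F + 0 = F := ext' fun _ _ _ => add_zero _
theorem add_comm' (F G : PS Q) : F + G = G + F := ext' fun _ _ _ => add_comm _ _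
theorem neg_add_cancel' (F : PS Q) : -F + F = 0 := ext' fun j i w => by
  rw [add_c, neg_c, neg_add_cancel, zero_c]

theorem zero_mul' (F : PS Q) : 0 * F = 0 := ext' fun j i w => by
  rw [mul_c]; simp [zero_c]
theorem mul_zero' (F : PS Q) : F * 0 = 0 := ext' fun j i w => by
  rw [mul_c]; simp [zero_c]
theorem left_distrib' (F G H : PS Q) : F * (G + H) = F * G + F * H := ext' fun j i w => by
  rw [add_c, mul_c, mul_c, mul_c, ← Finset.sum_add_distrib]
  refine Finset.sum_congr rfl fun l _ => ?_
  rw [← Finset.sum_add_distrib]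
  exact Finset.sum_congr rfl fun m _ => by rw [add_c, mul_add]
theorem right_distrib' (F G H : PS Q) : (F + G) * H = F * H + G * H := ext' fun j i w => by
  rw [add_c, mul_c, mul_c, mul_c, ← Finset.sum_add_distrib]
  refine Finset.sum_congr rfl fun l _ => ?_
  rw [← Finset.sum_add_distrib]
  exact Finset.sum_congr rfl fun m _ => by rw [add_c, add_mul]
theorem one_mul' (F : PS Q) : 1 * F = F := ext' fun j i w => by
  rw [mul_c, Finset.sum_eq_single j, Finset.sum_eq_single 0]
  · rw [one_c, if_pos ⟨rfl, by simp⟩]; simp
  · intro m hm h0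
    rw [one_c, if_neg, zero_mul]
    rintro ⟨-, h⟩
    have := congrArg List.length h
    rw [List.length_take, List.length_nil] at this
    rw [Finset.mem_range] at hm
    omega
  · simp
  · intro l _ hl
    refine Finset.sum_eq_zero fun m _ => ?_
    rw [one_c, if_neg (fun h => hl h.1.symm), zero_mul]
  · simp
theorem mul_one' (F : PS Q) : F * 1 = F := ext' fun j i w => by
  rw [mul_c, Finset.sum_eq_single i, Finset.sum_eq_single w.length]
  · rw [one_c, if_pos ⟨rfl, by simp⟩]; simp
  · intro m hm h0
    rw [one_c, if_neg, mul_zero]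
    rintro ⟨-, h⟩
    have := congrArg List.length h
    rw [List.length_drop, List.length_nil] at this
    rw [Finset.mem_range] at hm
    omega
  · simp
  · intro l _ hl
    refine Finset.sum_eq_zero fun m _ => ?_
    rw [one_c, if_neg (fun h => hl h.1), mul_zero]
  · simp

/-- comparison with matrices of noncommutative power series -/
def toM (F : PS Q) : Matrix (Fin n) (Fin n) (NC Q.A) := fun j i => F.c j i

theorem toM_mul (F G : PS Q) : toM (F * G) = toM F * toM G := by
  ext j i w
  rw [Matrix.mul_apply, NC.sum_apply]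
  rfl

theorem toM_inj {F G : PS Q} (h : toM F = toM G) : F = G :=
  ext' fun j i w => congrFun (congrFun (congrFun h j) i) w

theorem mul_assoc' (F G H : PS Q) : F * G * H = F * (G * H) :=
  toM_inj (by rw [toM_mul, toM_mul, toM_mul, toM_mul, mul_assoc])

noncomputable instance : AddCommGroup (PS Q) where
  add_assoc := add_assoc'
  zero_add := zero_add'
  add_zero := add_zero'
  add_comm := add_comm'
  neg_add_cancel := neg_add_cancel'
  nsmul := nsmulRec
  zsmul := zsmulRec

noncomputable instance : Ring (PS Q) where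
  zero_mul := zero_mul'
  mul_zero := mul_zero'
  left_distrib := left_distrib'
  right_distrib := right_distrib'
  one_mul := one_mul'
  mul_one := mul_one'
  mul_assoc := mul_assoc'
  neg_add_cancel := neg_add_cancel'
  zsmul := zsmulRec

theorem one_smul' (F : PS Q) : (1 : ℂ) • F = F := ext' fun _ _ _ => one_mul _
theorem mul_smul' (x y : ℂ) (F : PS Q) : (x * y) • F = x • y • F := ext' fun _ _ _ => mul_assoc _ _ _
theorem smul_zero' (x : ℂ) : x • (0 : PS Q) = 0 := ext' fun _ _ _ => mul_zero _
theorem zero_smul' (F : PS Q) : (0 : ℂ) • F = 0 := ext' fun _ _ _ => zero_mul _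
theorem smul_add' (x : ℂ) (F G : PS Q) : x • (F + G) = x • F + x • G := ext' fun _ _ _ => mul_add _ _ _
theorem add_smul' (x y : ℂ) (F : PS Q) : (x + y) • F = x • F + y • F := ext' fun _ _ _ => add_mul _ _ _

noncomputable instance : Module ℂ (PS Q) where
  one_smul := one_smul'
  mul_smul := mul_smul'
  smul_zero := smul_zero'
  zero_smul := zero_smul'
  smul_add := smul_add'
  add_smul := add_smul'

theorem smul_mul' (x : ℂ) (F G : PS Q) : x • F * G = x • (F * G) := ext' fun j i w => by
  rw [smul_c, mul_c, mul_c, Finset.mul_sum]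
  refine Finset.sum_congr rfl fun l _ => ?_
  rw [Finset.mul_sum]
  exact Finset.sum_congr rfl fun m _ => by rw [smul_c, mul_assoc]

theorem mul_smul'' (x : ℂ) (F G : PS Q) : F * x • G = x • (F * G) := ext' fun j i w => by
  rw [smul_c, mul_c, mul_c, Finset.mul_sum]
  refine Finset.sum_congr rfl fun l _ => ?_
  rw [Finset.mul_sum]
  exact Finset.sum_congr rfl fun m _ => by rw [smul_c, mul_left_comm]

noncomputable instance : Algebra ℂ (PS Q) := Algebra.ofModule smul_mul' mul_smul''

/-- The element given by a path. -/
noncomputable def path {j i : Fin n} {w : List Q.A} (hw : Q.IsPath w j i) : PS Q :=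
  ⟨fun j' i' w' => if j' = j ∧ i' = i ∧ w' = w then 1 else 0, path_supp hw⟩

end PS

namespace Quiv

/-- The trivial path at the vertex `i`. -/
noncomputable def triv (Q : Quiv n) (i : Fin n) : PS Q := PS.path (Quiv.IsPath.nil i)

end Quiv

/-! ### Potentials -/

/-- A potential: a (possibly infinite) linear combination of cyclic paths of positive length. -/
def IsPot {Q : Quiv n} (W : PS Q) : Prop := ∀ j i w, W.c j i w ≠ 0 → j = i ∧ w ≠ []

/-- A potential is reduced if only cyclic paths of length at least `3` occur in it. -/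
def IsRed {Q : Quiv n} (W : PS Q) : Prop := ∀ j i w, W.c j i w ≠ 0 → 3 ≤ w.length

/-- `IsCycDiff D` says that `D = a₁ a₂ ⋯ a_d - a₂ ⋯ a_d a₁` for a cyclic path `a₁ a₂ ⋯ a_d`. -/
inductive IsCycDiff {Q : Quiv n} : PS Q → Prop
  | mk {i j : Fin n} {a : Q.A} {v : List Q.A} (h : Q.IsPath (a :: v) i i)
      (h' : Q.IsPath (v ++ [a]) j j) : IsCycDiff (PS.path h - PS.path h')

/-- Cyclic equivalence: the difference lies in the closure, for the topology given by the length
of paths, of the span of the elements `a₁ a₂ ⋯ a_d - a₂ ⋯ a_d a₁` with `a₁ ⋯ a_d` a cyclic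
path. -/
def CycEquiv {Q : Quiv n} (W W' : PS Q) : Prop :=
  ∀ N : ℕ, ∃ D ∈ Submodule.span ℂ {D : PS Q | IsCycDiff D},
    ∀ j i w, w.length < N → (W - W' - D).c j i w = 0

/-- Right-equivalence: an isomorphism of the completed path algebras that fixes the trivial paths
and carries the first potential to a potential cyclically equivalent to the second. -/
def RightEq {Q Q' : Quiv n} (W : PS Q) (W' : PS Q') : Prop :=
  ∃ φ : PS Q ≃ₐ[ℂ] PS Q', (∀ i, φ (Q.triv i) = Q'.triv i) ∧ CycEquiv (φ W) W'

/-! ### Mutation of quivers with potential -/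

/-- The word of `Q` that a word in the arrows of the premutation stands for (`none` if there is
none): a kept arrow `a` stands for `a`, a composite arrow `[b a]` stands for the path `b a`, and
nothing is assigned to the arrows `a*`. -/
def unfoldWord (Q : Quiv n) (k : Fin n) (w : List (Q.premut k).A) : Option (List Q.A) :=
  (w.mapM (Sum.elim (fun a => some [a.1])
    (Sum.elim (fun p => some [p.1.1, p.2.1]) (fun _ => none)))).map List.flatten

/-- The arrow `a*` of the premutation. -/
def Quiv.star (Q : Quiv n) (k : Fin n) (a : Q.A) (h : Q.s a = k ∨ Q.t a = k) : (Q.premut k).A :=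
  Sum.inr (Sum.inr ⟨a, h⟩)

/-- The composite arrow `[b a]` of the premutation. -/
def Quiv.comp (Q : Quiv n) (k : Fin n) (b : {b : Q.A // Q.s b = k}) (a : {a : Q.A // Q.t a = k}) :
    (Q.premut k).A :=
  Sum.inr (Sum.inl (b, a))

/-- `IsPremutPot k W V`: the potential `V` on the premutation at `k` is `[W] + ∑ [b a] a* b*`, for
a potential `W` without terms starting at `k`. Here `[W]` is obtained from `W` by replacing each
path `b a` through `k` by the composite arrow `[b a]`, and the sum is over all pairs of an arrow
`b` with source `k` and an arrow `a` with target `k`. -/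
def IsPremutPot (Q : Quiv n) (k : Fin n) (W : PS Q) (V : PS (Q.premut k)) : Prop :=
  ∀ (j i : Fin n) (w : List (Q.premut k).A), V.c j i w =
    (unfoldWord Q k w).elim 0 (fun x => W.c j i x) +
    ∑ b : {b : Q.A // Q.s b = k}, ∑ a : {a : Q.A // Q.t a = k},
      if j = Q.t b.1 ∧ i = Q.t b.1 ∧ w = [Q.comp k b a, Q.star k a (Or.inr a.2),
        Q.star k b (Or.inl b.2)] then 1 else 0

/-- The added arrows: `(x, false) : u x → v x` and `(x, true) : v x → u x`. -/
def Quiv.tw (Q : Quiv n) (T : Type) [Fintype T] [DecidableEq T] (u v : T → Fin n) (p : T × Bool) :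
    (Q.addTwoCycles T u v).A := Sum.inr p

/-- `IsSumPot W V`: the potential `V` on the quiver with added `2`-cycles is
`W + ∑ x, (x, true) (x, false)`, the direct sum of `W` and of a trivial potential. -/
def IsSumPot (Q : Quiv n) (T : Type) [Fintype T] [DecidableEq T] (u v : T → Fin n) (W : PS Q)
    (V : PS (Q.addTwoCycles T u v)) : Prop :=
  ∀ (j i : Fin n) (w : List (Q.addTwoCycles T u v).A), V.c j i w =
    (w.mapM (Sum.elim (fun a => some a) (fun _ => none))).elim 0 (fun x => W.c j i x) +
    ∑ x : T, if j = u x ∧ i = u x ∧ w = [Q.tw T u v (x, true), Q.tw T u v (x, false)]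
      then 1 else 0

/-- `IsMut k W W'` says that the quiver with potential `(Q', W')` is a mutation of `(Q, W)`
at the vertex `k`, that is, a reduced part of the premutation: `W'` is a reduced potential, and
the premutation of a potential `W₀` cyclically equivalent to `W` and without terms starting
at `k` is right-equivalent to the direct sum of `(Q', W')` and a trivial quiver with potential
`∑ b_x a_x`, where the `a_x`, `b_x` are disjoint `2`-cycles. -/
def IsMut (k : Fin n) {Q Q' : Quiv n} (W : PS Q) (W' : PS Q') : Prop :=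
  IsPot W' ∧ IsRed W' ∧ ∃ (W₀ : PS Q) (V : PS (Q.premut k)) (T : Type) (_ : Fintype T)
    (_ : DecidableEq T) (u v : T → Fin n) (V' : PS (Q'.addTwoCycles T u v)),
      IsPot W₀ ∧ CycEquiv W W₀ ∧ (∀ w, W₀.c k k w = 0) ∧ IsPremutPot Q k W₀ V ∧
        IsSumPot Q' T u v W' V' ∧ RightEq V V'

/-- The quivers with potential obtained by mutating successively at the vertices of the list
exist and are all `2`-acyclic. (The mutation at `k` of a quiver with potential is unique up to
right-equivalence.) -/
inductive NondegAlong : List (Fin n) → (Q : Quiv n) → PS Q → Prop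
  | nil {Q : Quiv n} {W : PS Q} : Q.TwoAcyclic → NondegAlong [] Q W
  | cons {k : Fin n} {ks : List (Fin n)} {Q Q' : Quiv n} {W : PS Q} {W' : PS Q'} :
      Q.TwoAcyclic → IsMut k W W' → NondegAlong ks Q' W' → NondegAlong (k :: ks) Q W

/-- A quiver with potential is non-degenerate if all quivers with potential obtained from it by
finite sequences of mutations are `2`-acyclic. -/
def Nondeg {Q : Quiv n} (W : PS Q) : Prop :=
  IsPot W ∧ ∀ ks : List (Fin n), NondegAlong ks Q W

/-! ### Representations -/

/-- The cyclic derivative of a potential with respect to the arrow `b`: the linear and continuous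
extension of `∂_b (a₁ ⋯ a_d) = ∑_{a_k = b} a_{k+1} ⋯ a_d a₁ ⋯ a_{k-1}`. Its coefficient at `w` is
the sum, over all ways of writing `w = u v`, of the coefficient of `W` at the cyclic path
`v b u`. -/
noncomputable def cycDeriv {Q : Quiv n} (W : PS Q) (b : Q.A) (w : List Q.A) : ℂ :=
  ∑ m ∈ range (w.length + 1), ∑ i, W.c i i (w.drop m ++ b :: w.take m)

/-- The dimension of the span of a set of vectors. -/
noncomputable def dimSpan {V : Type} [AddCommGroup V] [Module ℂ V] (S : Set V) : ℤ :=
  Module.finrank ℂ (Submodule.span ℂ S)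

/-- A finite-dimensional nilpotent representation of the quiver `Q`, written in coordinates: the
space `ℂ ^ N`, a map `v` assigning to each standard basis vector the vertex at which it lies, and
matrices `X a` mapping the space at `s a` to the space at `t a` (and zero on the other summands),
such that all sufficiently long words in the `X a` vanish. -/
structure Repn (Q : Quiv n) where
  /-- the total dimension -/
  N : ℕ
  /-- the vertices at which the standard basis vectors lie -/
  v : Fin N → Fin n
  /-- the action of the arrows -/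
  X : Q.A → Matrix (Fin N) (Fin N) ℂ
  supp : ∀ a p q, X a p q ≠ 0 → v p = Q.t a ∧ v q = Q.s a
  nilp : ∃ K : ℕ, ∀ w : List Q.A, K ≤ w.length → (w.map X).prod = 0

namespace Repn

variable {Q : Quiv n}

/-- The representation `M` is a module over the Jacobian algebra of `(Q, W)`: all cyclic
derivatives of `W` act as zero (the sums are finite, as `M` is nilpotent). -/
def IsModule (W : PS Q) (M : Repn Q) : Prop :=
  ∀ b : Q.A, ∑ᶠ w : List Q.A, cycDeriv W b w • (w.map M.X).prod = 0

/-- The homomorphisms `M' → M` of representations. -/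
def homs (M' M : Repn Q) : Set (Matrix (Fin M.N) (Fin M'.N) ℂ) :=
  {h | (∀ p q, h p q ≠ 0 → M.v p = M'.v q) ∧ ∀ a, M.X a * h = h * M'.X a}

/-- The extensions of `M'` by `M` over the Jacobian algebra of `(Q, W)`: the families `θ` such
that the block matrices `(X a, θ a; 0, X' a)` define a module over the Jacobian algebra on
`M ⊕ M'`. -/
def exts (W : PS Q) (M' M : Repn Q) : Set (Q.A → Matrix (Fin M.N) (Fin M'.N) ℂ) :=
  {θ | (∀ a p q, θ a p q ≠ 0 → M.v p = Q.t a ∧ M'.v q = Q.s a) ∧
    ∀ b : Q.A, ∑ᶠ w : List Q.A, cycDeriv W b w •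
      (w.map fun a => Matrix.fromBlocks (M.X a) (θ a) 0 (M'.X a)).prod = 0}

/-- The trivial extensions, `θ a = X a h - h X' a`. -/
def trivExts (M' M : Repn Q) : Set (Q.A → Matrix (Fin M.N) (Fin M'.N) ℂ) :=
  {θ | ∃ h : Matrix (Fin M.N) (Fin M'.N) ℂ, (∀ p q, h p q ≠ 0 → M.v p = M'.v q) ∧
    ∀ a, θ a = M.X a * h - h * M'.X a}

/-- The dimension of `Hom(M', M)`. -/
noncomputable def dimHom (M' M : Repn Q) : ℤ := dimSpan (homs M' M)

/-- The dimension of `Ext¹(M', M)` over the Jacobian algebra of `(Q, W)`: the dimension of the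
space of extensions minus the dimension of the subspace of trivial extensions. -/
noncomputable def dimExt (W : PS Q) (M' M : Repn Q) : ℤ :=
  dimSpan (exts W M' M) - dimSpan (trivExts M' M)

/-- The simple representation at the vertex `i`. -/
def simple (Q : Quiv n) (i : Fin n) : Repn Q where
  N := 1
  v := fun _ => i
  X := fun _ => 0
  supp := fun _ _ _ h => absurd rfl h
  nilp := ⟨1, fun w hw => by
    cases w with
    | nil => simp at hw
    | cons a w => simp⟩

/-- The `g`-vector of the decorated representation `(M, V)`, where `V i` has dimension `d i`: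
`g i = - dim Hom(S_i, M) + dim Ext¹(S_i, M) + dim V_i`. -/
noncomputable def gVec (W : PS Q) (M : Repn Q) (d : Fin n → ℕ) (i : Fin n) : ℤ :=
  -dimHom (simple Q i) M + dimExt W (simple Q i) M + d i

/-- The dimension vector. -/
def dimVec (M : Repn Q) (i : Fin n) : ℕ := #{p | M.v p = i}

/-- The projection of `ℂ ^ N` to the space at the vertex `i`. -/
def proj (M : Repn Q) (i : Fin n) : (Fin M.N → ℂ) →ₗ[ℂ] (Fin M.N → ℂ) :=
  LinearMap.pi fun p => if M.v p = i then LinearMap.proj p else 0

end Repn

/-! ### Quiver Grassmannians and Euler characteristics -/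

/-- The `k`-frames of `ℂ ^ N`, with the subspace topology. -/
abbrev Frm (N k : ℕ) : Type := {v : Fin k → (Fin N → ℂ) // LinearIndependent ℂ v}

/-- The Grassmannian of `k`-dimensional subspaces of `ℂ ^ N`. -/
structure Gr (N k : ℕ) where
  /-- the subspace -/
  sub : Submodule ℂ (Fin N → ℂ)
  dim : Module.finrank ℂ sub = k

theorem finrank_frm {N k : ℕ} (v : Frm N k) :
    Module.finrank ℂ (Submodule.span ℂ (Set.range v.1)) = k := by
  rw [finrank_span_eq_card v.2, Fintype.card_fin]

/-- The subspace spanned by a frame. -/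
noncomputable def Frm.span {N k : ℕ} (v : Frm N k) : Gr N k := ⟨Submodule.span ℂ (Set.range v.1), finrank_frm v⟩

/-- The Grassmannian carries the quotient topology of the space of frames. -/
noncomputable instance (N k : ℕ) : TopologicalSpace (Gr N k) :=
  TopologicalSpace.coinduced (Frm.span (N := N) (k := k)) inferInstance

/-- The quiver Grassmannian of subrepresentations of dimension vector `d`, a subset of the
Grassmannian. -/
def QGr {Q : Quiv n} (M : Repn Q) (d : Fin n → ℕ) : Set (Gr M.N (∑ i, d i)) :=
  {U | (∀ i, ∀ x ∈ U.sub, M.proj i x ∈ U.sub) ∧ (∀ a, ∀ x ∈ U.sub, (M.X a).mulVec x ∈ U.sub) ∧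
    ∀ i, Module.finrank ℂ (U.sub.map (M.proj i)) = d i}

/-- The `i`-th singular homology of a topological space with complex coefficients. -/
noncomputable def homology (X : Type) [TopologicalSpace X] (i : ℕ) : ModuleCat.{0} ℂ :=
  ((AlgebraicTopology.singularHomologyFunctor (ModuleCat.{0} ℂ) i).obj
    (ModuleCat.of ℂ ℂ)).obj (TopCat.of X)

/-- The topological Euler characteristic: the alternating sum of the dimensions of the singular
homology groups with complex coefficients. -/
noncomputable def eulerChar (X : Type) [TopologicalSpace X] : ℤ :=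
  ∑ᶠ i : ℕ, (-1) ^ i * (Module.finrank ℂ (homology X i) : ℤ)

/-! ### Caldero-Chapoton algebras and cluster algebras -/

/-- The field of rational functions in `x_0, ..., x_{n-1}`. -/
abbrev RatF (n : ℕ) : Type := FractionRing (MvPolynomial (Fin n) ℂ)

/-- The initial cluster variables. -/
noncomputable def var (i : Fin n) : RatF n :=
  algebraMap (MvPolynomial (Fin n) ℂ) (RatF n) (MvPolynomial.X i)

/-- The Laurent monomial with exponent vector `g`. -/
noncomputable def mon (g : Fin n → ℤ) : RatF n := ∏ i, var i ^ g i

/-- The Caldero-Chapoton function of the decorated representation `(M, V)`, where `V i` has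
dimension `v i`. The sum runs over all dimension vectors `d` that are at most the dimension vector
of `M` (for all others the quiver Grassmannian is empty). -/
noncomputable def ccFun {Q : Quiv n} (W : PS Q) (M : Repn Q) (v : Fin n → ℕ) : RatF n :=
  mon (M.gVec W v) * ∑ d ∈ Finset.Iic M.dimVec,
    (eulerChar (QGr M d) : RatF n) * mon (Q.B.mulVec fun j => (d j : ℤ))

/-- The Caldero-Chapoton algebra of `(Q, W)`: the subalgebra generated by the Caldero-Chapoton
functions of all decorated representations of the Jacobian algebra. -/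
noncomputable def ccAlg {Q : Quiv n} (W : PS Q) : Subalgebra ℂ (RatF n) :=
  Algebra.adjoin ℂ {f | ∃ (M : Repn Q) (v : Fin n → ℕ), M.IsModule W ∧ f = ccFun W M v}

/-- A (labelled) seed: `n` elements of the field of rational functions and an integer matrix. -/
structure Seed (n : ℕ) where
  /-- the cluster -/
  x : Fin n → RatF n
  /-- the exchange matrix -/
  B : Matrix (Fin n) (Fin n) ℤ

/-- Mutation of seeds. -/
noncomputable def Seed.mutate (S : Seed n) (k : Fin n) : Seed n where
  x := Function.update S.x k
    ((∏ i, S.x i ^ (S.B i k).toNat + ∏ i, S.x i ^ (-S.B i k).toNat) / S.x k)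
  B := fun i j => if i = k ∨ j = k then - S.B i j else
    S.B i j + (max (S.B i k) 0 * max (S.B k j) 0 - max (-S.B i k) 0 * max (-S.B k j) 0)

/-- The seeds mutation-equivalent to the initial seed of `Q`. -/
inductive Reach (Q : Quiv n) : Seed n → Prop
  | init : Reach Q ⟨var, Q.B⟩
  | step {S : Seed n} (k : Fin n) : Reach Q S → Reach Q (S.mutate k)

/-- The coefficient-free cluster algebra of `Q`: the subalgebra generated by all cluster
variables. -/
noncomputable def clusterAlg (Q : Quiv n) : Subalgebra ℂ (RatF n) :=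
  Algebra.adjoin ℂ {f | ∃ S : Seed n, Reach Q S ∧ ∃ i, f = S.x i}

end Pool.Agent.TH14.CC
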