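import Pool.Agent.TH14.CC.Def

/-!
The Euler characteristic of a point and of the empty space.
-/

namespace Pool.Agent.TH14.CC

open CategoryTheory CategoryTheory.Limits AlgebraicTopology

theorem homology_pos (X : Type) [TopologicalSpace X] [Subsingleton X] {i : ℕ} (hi : i ≠ 0) :
    Module.finrank ℂ (homology X i) = 0 := by
  have : TotallyDisconnectedSpace (TopCat.of X) :=
    inferInstanceAs (TotallyDisconnectedSpace X)
  have h := isZero_singularHomologyFunctor_of_totallyDisconnectedSpace (ModuleCat.{0} ℂ) i
    (ModuleCat.of ℂ ℂ) (TopCat.of X) hi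
  have : Subsingleton (homology X i) := ModuleCat.subsingleton_of_isZero h
  exact Module.finrank_zero_of_subsingleton

theorem homology_zero_point (X : Type) [TopologicalSpace X] [Unique X] :
    Module.finrank ℂ (homology X 0) = 1 := by
  have : TotallyDisconnectedSpace (TopCat.of X) :=
    inferInstanceAs (TotallyDisconnectedSpace X)
  have : Unique (TopCat.of X) := inferInstanceAs (Unique X)
  have e := singularHomologyFunctorZeroOfTotallyDisconnectedSpace (ModuleCat.{0} ℂ)
    (ModuleCat.of ℂ ℂ) (TopCat.of X) ≪≫
    coproductUniqueIso (fun _ : TopCat.of X => ModuleCat.of ℂ ℂ)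
  have e' := e.toLinearEquiv
  exact e'.finrank_eq.trans (Module.finrank_self ℂ)

theorem homology_zero_empty (X : Type) [TopologicalSpace X] [IsEmpty X] :
    Module.finrank ℂ (homology X 0) = 0 := by
  have : TotallyDisconnectedSpace (TopCat.of X) :=
    inferInstanceAs (TotallyDisconnectedSpace X)
  have : IsEmpty (TopCat.of X) := inferInstanceAs (IsEmpty X)
  have e := singularHomologyFunctorZeroOfTotallyDisconnectedSpace (ModuleCat.{0} ℂ)
    (ModuleCat.of ℂ ℂ) (TopCat.of X)
  have hz : IsZero (∐ fun _ : TopCat.of X => ModuleCat.of ℂ ℂ) := by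
    rw [IsZero.iff_id_eq_zero]
    exact Sigma.hom_ext _ _ (fun b => isEmptyElim b)
  have hz' := hz.of_iso e
  have : Subsingleton (homology X 0) := ModuleCat.subsingleton_of_isZero hz'
  exact Module.finrank_zero_of_subsingleton

theorem eulerChar_point (X : Type) [TopologicalSpace X] [Unique X] : eulerChar X = 1 := by
  unfold eulerChar
  rw [finsum_eq_single _ 0]
  · rw [homology_zero_point]; simp
  · intro i hi
    rw [homology_pos X hi]; simp

theorem eulerChar_empty (X : Type) [TopologicalSpace X] [IsEmpty X] : eulerChar X = 0 := by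
  unfold eulerChar
  rw [finsum_eq_single _ 0]
  · rw [homology_zero_empty]; simp
  · intro i hi
    rw [homology_pos X hi]; simp

end Pool.Agent.TH14.CC
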