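import Pool.Agent.TH14.CC.MRep
import Pool.Agent.TH14.CC.Euler

/-!
The Caldero-Chapoton function of the representation with dimension vector `(1, 1, 0)`.
-/

namespace Pool.Agent.TH14.CC

open Finset Quiv

variable {a : Fin 2 → ℂ}

/-- the projections -/
def pj (a : Fin 2 → ℂ) (i : Fin 3) : (Fin 2 → ℂ) →ₗ[ℂ] (Fin 2 → ℂ) := (mRep a).proj i

theorem pj_apply (i : Fin 3) (x : Fin 2 → ℂ) (p : Fin 2) :
    pj a i x p = if (![0, 1] : Fin 2 → Fin 3) p = i then x p else 0 := by
  have : pj a i x p = (if (![0, 1] : Fin 2 → Fin 3) p = i then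
      (LinearMap.proj p : (Fin 2 → ℂ) →ₗ[ℂ] ℂ) else 0) x := rfl
  rw [this]
  split_ifs <;> rfl

/-- the second basis vector -/
def e1 : Fin 2 → ℂ := ![0, 1]
/-- the first basis vector -/
def e0 : Fin 2 → ℂ := ![1, 0]

theorem e1_ne : e1 ≠ 0 := fun h => one_ne_zero (congrFun h 1)
theorem e0_ne : e0 ≠ 0 := fun h => one_ne_zero (congrFun h 0)

theorem pj0_e1 : pj a 0 e1 = 0 := by
  funext p; rw [pj_apply]; fin_cases p <;> simp [e1]
theorem pj1_e1 : pj a 1 e1 = e1 := by
  funext p; rw [pj_apply]; fin_cases p <;> simp [e1]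
theorem pj2 (x : Fin 2 → ℂ) : pj a 2 x = 0 := by
  funext p; rw [pj_apply]; fin_cases p <;> simp
theorem pj0_e0 : pj a 0 e0 = e0 := by
  funext p; rw [pj_apply]; fin_cases p <;> simp [e0]

theorem dimVec_eq : (mRep a).dimVec = ![1, 1, 0] := by
  have h : ∀ i : Fin 3, #{p : Fin 2 | (![0, 1] : Fin 2 → Fin 3) p = i} = (![1, 1, 0] : Fin 3 → ℕ) i := by
    decide
  exact funext h

/-- The conditions defining the quiver Grassmannian, for subspaces of `ℂ ^ 2`. -/
def Good (a : Fin 2 → ℂ) (d : Fin 3 → ℕ) (N : Submodule ℂ (Fin 2 → ℂ)) : Prop :=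
  Module.finrank ℂ N = ∑ i, d i ∧ (∀ i, ∀ x ∈ N, pj a i x ∈ N) ∧
    (∀ b, ∀ x ∈ N, (mX a b).mulVec x ∈ N) ∧ ∀ i, Module.finrank ℂ (N.map (pj a i)) = d i

theorem good_of (d : Fin 3 → ℕ) (N : QGr (mRep a) d) : Good a d N.1.sub :=
  ⟨N.1.dim, N.2⟩

/-- a point of the quiver Grassmannian -/
def ofGood (d : Fin 3 → ℕ) (N : Submodule ℂ (Fin 2 → ℂ)) (h : Good a d N) :
    QGr (mRep a) d := ⟨⟨N, h.1⟩, h.2⟩

theorem good_bot : Good a ![0, 0, 0] ⊥ := by
  refine ⟨by simp [Fin.sum_univ_three], fun i x hx => ?_, fun b x hx => ?_, fun i => ?_⟩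
  · rw [Submodule.mem_bot] at hx ⊢
    rw [hx, map_zero]
  · rw [Submodule.mem_bot] at hx ⊢
    rw [hx, Matrix.mulVec_zero]
  · rw [Submodule.map_bot, finrank_bot]
    fin_cases i <;> rfl

theorem good_top : Good a ![1, 1, 0] ⊤ := by
  refine ⟨?_, fun i x _ => Submodule.mem_top, fun b x _ => Submodule.mem_top, fun i => ?_⟩
  · rw [finrank_top]
    simp [Fin.sum_univ_three]
  · fin_cases i
    · show Module.finrank ℂ ((⊤ : Submodule ℂ (Fin 2 → ℂ)).map (pj a 0)) = 1
      have : (⊤ : Submodule ℂ (Fin 2 → ℂ)).map (pj a 0) = Submodule.span ℂ {e0} := by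
        ext x
        rw [Submodule.mem_span_singleton]
        constructor
        · rintro ⟨y, -, rfl⟩
          refine ⟨y 0, ?_⟩
          funext p
          rw [pj_apply]
          fin_cases p <;> simp [e0]
        · rintro ⟨c, rfl⟩
          refine ⟨c • e0, trivial, ?_⟩
          rw [map_smul, pj0_e0]
      rw [this, finrank_span_singleton e0_ne]
    · show Module.finrank ℂ ((⊤ : Submodule ℂ (Fin 2 → ℂ)).map (pj a 1)) = 1
      have : (⊤ : Submodule ℂ (Fin 2 → ℂ)).map (pj a 1) = Submodule.span ℂ {e1} := by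
        ext x
        rw [Submodule.mem_span_singleton]
        constructor
        · rintro ⟨y, -, rfl⟩
          refine ⟨y 1, ?_⟩
          funext p
          rw [pj_apply]
          fin_cases p <;> simp [e1]
        · rintro ⟨c, rfl⟩
          refine ⟨c • e1, trivial, ?_⟩
          rw [map_smul, pj1_e1]
      rw [this, finrank_span_singleton e1_ne]
    · show Module.finrank ℂ ((⊤ : Submodule ℂ (Fin 2 → ℂ)).map (pj a 2)) = 0
      have : (⊤ : Submodule ℂ (Fin 2 → ℂ)).map (pj a 2) = ⊥ := by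
        rw [Submodule.eq_bot_iff]
        rintro _ ⟨y, -, rfl⟩
        exact pj2 y
      rw [this, finrank_bot]

theorem mulVec_e1 (b : markov.A) : (mX a b).mulVec e1 = 0 := by
  funext p
  show ∑ q, mX a b p q * e1 q = 0
  rw [Fin.sum_univ_two]
  simp [mX, e1]

theorem good_inr : Good a ![0, 1, 0] (Submodule.span ℂ {e1}) := by
  refine ⟨?_, fun i x hx => ?_, fun b x hx => ?_, fun i => ?_⟩
  · rw [finrank_span_singleton e1_ne]; simp [Fin.sum_univ_three]
  · obtain ⟨c, rfl⟩ := Submodule.mem_span_singleton.1 hx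
    rw [map_smul]
    apply Submodule.smul_mem
    fin_cases i
    · show pj a 0 e1 ∈ _
      rw [pj0_e1]; exact Submodule.zero_mem _
    · show pj a 1 e1 ∈ _
      rw [pj1_e1]; exact Submodule.mem_span_singleton_self _
    · show pj a 2 e1 ∈ _
      rw [pj2]; exact Submodule.zero_mem _
  · obtain ⟨c, rfl⟩ := Submodule.mem_span_singleton.1 hx
    rw [Matrix.mulVec_smul, mulVec_e1, smul_zero]
    exact Submodule.zero_mem _
  · rw [Submodule.map_span, Set.image_singleton]
    fin_cases i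
    · show Module.finrank ℂ (Submodule.span ℂ {pj a 0 e1}) = 0
      rw [pj0_e1, Submodule.span_zero_singleton, finrank_bot]
    · show Module.finrank ℂ (Submodule.span ℂ {pj a 1 e1}) = 1
      rw [pj1_e1, finrank_span_singleton e1_ne]
    · show Module.finrank ℂ (Submodule.span ℂ {pj a 2 e1}) = 0
      rw [pj2, Submodule.span_zero_singleton, finrank_bot]

theorem eq_bot_of_good {N : Submodule ℂ (Fin 2 → ℂ)} (h : Good a ![0, 0, 0] N) : N = ⊥ := by
  have := h.1
  rw [show ∑ i, (![0, 0, 0] : Fin 3 → ℕ) i = 0 by simp [Fin.sum_univ_three]] at this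
  exact Submodule.finrank_eq_zero.1 this

theorem eq_top_of_good {N : Submodule ℂ (Fin 2 → ℂ)} (h : Good a ![1, 1, 0] N) : N = ⊤ := by
  have := h.1
  rw [show ∑ i, (![1, 1, 0] : Fin 3 → ℕ) i = 2 by simp [Fin.sum_univ_three]] at this
  apply Submodule.eq_top_of_finrank_eq
  rw [this]; simp

theorem le_e1 {N : Submodule ℂ (Fin 2 → ℂ)} (h : N.map (pj a 0) = ⊥) :
    N ≤ Submodule.span ℂ {e1} := by
  intro x hx
  have : pj a 0 x ∈ N.map (pj a 0) := ⟨x, hx, rfl⟩
  rw [h, Submodule.mem_bot] at this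
  have h0 : x 0 = 0 := by
    have h1 := congrFun this 0
    rw [pj_apply] at h1
    simpa using h1
  rw [Submodule.mem_span_singleton]
  refine ⟨x 1, ?_⟩
  funext p
  fin_cases p
  · simp [e1, h0]
  · simp [e1]

theorem le_e0 {N : Submodule ℂ (Fin 2 → ℂ)} (h : N.map (pj a 1) = ⊥) :
    N ≤ Submodule.span ℂ {e0} := by
  intro x hx
  have : pj a 1 x ∈ N.map (pj a 1) := ⟨x, hx, rfl⟩
  rw [h, Submodule.mem_bot] at this
  have h0 : x 1 = 0 := by
    have h1 := congrFun this 1
    rw [pj_apply] at h1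
    simpa using h1
  rw [Submodule.mem_span_singleton]
  refine ⟨x 0, ?_⟩
  funext p
  fin_cases p
  · simp [e0]
  · simp [e0, h0]

theorem eq_inr_of_good {N : Submodule ℂ (Fin 2 → ℂ)} (h : Good a ![0, 1, 0] N) :
    N = Submodule.span ℂ {e1} := by
  have h1 := h.1
  rw [show ∑ i, (![0, 1, 0] : Fin 3 → ℕ) i = 1 by simp [Fin.sum_univ_three]] at h1
  have h2 : Module.finrank ℂ (N.map (pj a 0)) = 0 := h.2.2.2 0
  have h3 := le_e1 (Submodule.finrank_eq_zero.1 h2)
  apply Submodule.eq_of_le_of_finrank_eq h3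
  rw [h1, finrank_span_singleton e1_ne]

theorem not_good {N : Submodule ℂ (Fin 2 → ℂ)} {r : Fin 2} (hr : a r ≠ 0) :
    ¬ Good a ![1, 0, 0] N := by
  intro h
  have h1 := h.1
  rw [show ∑ i, (![1, 0, 0] : Fin 3 → ℕ) i = 1 by simp [Fin.sum_univ_three]] at h1
  have h2 : Module.finrank ℂ (N.map (pj a 1)) = 0 := h.2.2.2 1
  have h2' := Submodule.finrank_eq_zero.1 h2
  have h3 : N = Submodule.span ℂ {e0} := by
    apply Submodule.eq_of_le_of_finrank_eq (le_e0 h2')
    rw [h1, finrank_span_singleton e0_ne]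
  have h4 : e0 ∈ N := by
    rw [h3]; exact Submodule.mem_span_singleton_self _
  have h5 : (mX a (mk 0 r)).mulVec e0 ∈ N := h.2.2.1 (mk 0 r) _ h4
  have h7 : pj a 1 ((mX a (mk 0 r)).mulVec e0) ∈ N.map (pj a 1) := ⟨_, h5, rfl⟩
  rw [h2', Submodule.mem_bot] at h7
  have h8 := congrFun h7 1
  rw [pj_apply] at h8
  have h9 : (mX a (mk 0 r)).mulVec e0 1 = a r := by
    show ∑ q, mX a (mk 0 r) 1 q * e0 q = a r
    rw [Fin.sum_univ_two]
    simp [mX, e0]
  rw [h9] at h8
  exact hr (by simpa using h8)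

theorem euler_of_unique {d : Fin 3 → ℕ} {N : Submodule ℂ (Fin 2 → ℂ)} (h : Good a d N)
    (hu : ∀ N', Good a d N' → N' = N) : eulerChar (QGr (mRep a) d) = 1 := by
  have : Unique (QGr (mRep a) d) :=
    { default := ofGood d N h
      uniq := fun M => Subtype.ext (by
        have h1 := hu _ (good_of d M)
        obtain ⟨⟨M, hM⟩, hM'⟩ := M
        have h2 : M = N := h1
        subst h2
        rfl) }
  exact eulerChar_point _

theorem euler_of_empty {d : Fin 3 → ℕ} (hu : ∀ N', ¬ Good a d N') :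
    eulerChar (QGr (mRep a) d) = 0 := by
  have : IsEmpty (QGr (mRep a) d) := ⟨fun M => hu _ (good_of d M)⟩
  exact eulerChar_empty _

theorem iic_eq : Finset.Iic (![1, 1, 0] : Fin 3 → ℕ) =
    {![0, 0, 0], ![1, 0, 0], ![0, 1, 0], ![1, 1, 0]} := by decide

theorem B_eq : markov.B = !![0, -2, 2; 2, 0, -2; -2, 2, 0] := by
  have h : ∀ i j : Fin 3, markov.B i j = !![0, -2, 2; 2, 0, -2; -2, 2, 0] i j := by
    intro i j
    fin_cases i <;> fin_cases j <;> decide
  exact Matrix.ext h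

theorem ccFun_eq {W : PS markov}
    (ha : (∑ r, a r * cub W r 0 0) * (∑ r, a r * cub W r 1 1) -
      (∑ r, a r * cub W r 0 1) * (∑ r, a r * cub W r 1 0) ≠ 0) :
    ccFun W (mRep a) 0 =
      (var 0 ^ 2 + var 1 ^ 2 + var 2 ^ 2 : RatF 3) / (var 0 * var 1) := by
  obtain ⟨r, hr⟩ : ∃ r, a r ≠ 0 := by
    by_contra hc
    push Not at hc
    apply ha
    simp [hc]
  have hv : ∀ i : Fin 3, (var i : RatF 3) ≠ 0 := by
    intro i h
    have h' : algebraMap (MvPolynomial (Fin 3) ℂ) (RatF 3) (MvPolynomial.X i) = 0 := h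
    rw [IsFractionRing.to_map_eq_zero_iff] at h'
    exact MvPolynomial.X_ne_zero i h'
  unfold ccFun mon
  rw [gVec_eq ha, dimVec_eq, iic_eq]
  rw [Finset.sum_insert (by decide), Finset.sum_insert (by decide), Finset.sum_insert (by decide),
    Finset.sum_singleton]
  rw [euler_of_unique good_bot (fun N' h => eq_bot_of_good h),
    euler_of_empty (fun N' => not_good hr),
    euler_of_unique good_inr (fun N' h => eq_inr_of_good h),
    euler_of_unique good_top (fun N' h => eq_top_of_good h)]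
  rw [B_eq]
  simp only [Fin.prod_univ_three, Matrix.mulVec, dotProduct, Fin.sum_univ_three, Matrix.of_apply,
    Matrix.cons_val_zero, Matrix.cons_val_one, Matrix.cons_val, Nat.cast_zero, Nat.cast_one,
    mul_zero, mul_one, add_zero, zero_add, zpow_zero, zpow_one, Int.cast_one, one_mul,
    Int.cast_zero, zero_mul]
  have h0 := hv 0
  have h1 := hv 1
  have h2 := hv 2
  rw [show (-2 + 2 : ℤ) = 0 by norm_num, zpow_zero, mul_one, zpow_neg, zpow_neg, zpow_one,
    zpow_ofNat, zpow_ofNat, zpow_ofNat]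
  field_simp
  ring

end Pool.Agent.TH14.CC
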