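import Pool.Agent.TH14.CC.Fin

/-!
The cluster algebra of the Markov quiver is positively graded, with constants in degree zero.
-/

namespace Pool.Agent.TH14.CC

open Finset Quiv Module.End

/-- The scaling `x_i ↦ 2 x_i` of the polynomial ring. -/
noncomputable def scale : MvPolynomial (Fin 3) ℂ →ₐ[ℂ] MvPolynomial (Fin 3) ℂ :=
  MvPolynomial.aeval fun i => (2 : ℂ) • MvPolynomial.X i

/-- Its inverse. -/
noncomputable def unscale : MvPolynomial (Fin 3) ℂ →ₐ[ℂ] MvPolynomial (Fin 3) ℂ :=
  MvPolynomial.aeval fun i => (1 / 2 : ℂ) • MvPolynomial.X i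

theorem unscale_scale (p : MvPolynomial (Fin 3) ℂ) : unscale (scale p) = p := by
  have : unscale.comp scale = AlgHom.id ℂ _ := by
    apply MvPolynomial.algHom_ext
    intro i
    simp only [AlgHom.comp_apply, scale, unscale, MvPolynomial.aeval_X, map_smul,
      AlgHom.id_apply, smul_smul]
    norm_num
  exact DFunLike.congr_fun this p

theorem scale_inj : Function.Injective scale :=
  Function.LeftInverse.injective unscale_scale

theorem toRat_inj : Function.Injective
    ((IsScalarTower.toAlgHom ℂ (MvPolynomial (Fin 3) ℂ) (RatF 3)).comp scale) :=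
  (IsFractionRing.injective (MvPolynomial (Fin 3) ℂ) (RatF 3)).comp scale_inj

/-- The scaling `x_i ↦ 2 x_i` of the field of rational functions. -/
noncomputable def sig : RatF 3 →ₐ[ℂ] RatF 3 :=
  IsFractionRing.liftAlgHom (g := (IsScalarTower.toAlgHom ℂ (MvPolynomial (Fin 3) ℂ)
    (RatF 3)).comp scale) toRat_inj

theorem sig_var (i : Fin 3) : sig (var i) = 2 * var i := by
  unfold sig var
  rw [IsFractionRing.liftAlgHom_apply, IsFractionRing.lift_algebraMap]
  show algebraMap (MvPolynomial (Fin 3) ℂ) (RatF 3) (scale (MvPolynomial.X i)) = _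
  unfold scale
  rw [MvPolynomial.aeval_X, MvPolynomial.smul_eq_C_mul, map_mul]
  congr 1
  have : (MvPolynomial.C 2 : MvPolynomial (Fin 3) ℂ) = 2 := map_ofNat MvPolynomial.C 2
  rw [this, map_ofNat]

/-- eigenspaces of the scaling -/
noncomputable def eig (d : ℕ) : Submodule ℂ (RatF 3) := eigenspace sig.toLinearMap (2 ^ d)

theorem mem_eig {d : ℕ} {f : RatF 3} : f ∈ eig d ↔ sig f = (2 : ℂ) ^ d • f := by
  unfold eig
  rw [mem_eigenspace_iff]; rfl

theorem eig_mul {d e : ℕ} {f g : RatF 3} (hf : f ∈ eig d) (hg : g ∈ eig e) :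
    f * g ∈ eig (d + e) := by
  rw [mem_eig] at *
  rw [map_mul, hf, hg, smul_mul_smul_comm, pow_add]

/-- the part of positive degree -/
noncomputable def pos : Submodule ℂ (RatF 3) := ⨆ d : ℕ, eig (d + 1)

theorem pos_mul {f g : RatF 3} (hf : f ∈ pos) (hg : g ∈ pos) : f * g ∈ pos := by
  unfold pos at *
  induction hf using Submodule.iSup_induction' with
  | mem d x hx =>
    induction hg using Submodule.iSup_induction' with
    | mem e y hy =>
      refine Submodule.mem_iSup_of_mem (d + 1 + e) ?_
      exact eig_mul (d := d + 1) (e := e + 1) hx hy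
    | zero => rw [mul_zero]; exact Submodule.zero_mem _
    | add y y' _ _ ih ih' => rw [mul_add]; exact Submodule.add_mem _ ih ih'
  | zero => rw [zero_mul]; exact Submodule.zero_mem _
  | add x x' _ _ ih ih' => rw [add_mul]; exact Submodule.add_mem _ ih ih'

theorem disjoint_pos : Disjoint (eig 0) pos := by
  have h := eigenspaces_iSupIndep (sig.toLinearMap : Module.End ℂ (RatF 3)) 1
  have h0 : eig 0 = eigenspace sig.toLinearMap (1 : ℂ) := by unfold eig; rw [pow_zero]
  rw [h0]
  refine h.mono_right ?_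
  unfold pos
  refine iSup_le fun d => ?_
  have hne : (2 : ℂ) ^ (d + 1) ≠ 1 := by
    intro h
    have h2 : ((2 ^ (d + 1) : ℕ) : ℂ) = ((1 : ℕ) : ℂ) := by push_cast; exact h
    have h3 : 2 ^ (d + 1) = 1 := Nat.cast_injective h2
    have h4 := Nat.one_lt_two_pow (n := d + 1) (by omega)
    omega
  exact le_iSup₂_of_le ((2 : ℂ) ^ (d + 1)) hne le_rfl

/-- Elements of the cluster algebra: constants plus elements of positive degree. -/
def Pos (f : RatF 3) : Prop := ∃ c : ℂ, ∃ g ∈ pos, f = algebraMap ℂ (RatF 3) c + g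

theorem pos_one {f : RatF 3} (h : sig f = 2 * f) : f ∈ pos := by
  refine Submodule.mem_iSup_of_mem 0 ?_
  rw [mem_eig, h, zero_add, pow_one, Algebra.smul_def, map_ofNat]

theorem negB (i j : Fin 3) : (-markov.B) i j = -(markov.B i j) := rfl

theorem reach_inv {S : Seed 3} (h : Reach markov S) :
    (∀ i, sig (S.x i) = 2 * S.x i) ∧ (S.B = markov.B ∨ S.B = -markov.B) := by
  induction h with
  | init => exact ⟨sig_var, Or.inl rfl⟩
  | @step S k _ ih =>
    obtain ⟨h1, h2⟩ := ih
    constructor
    · intro i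
      by_cases hi : i = k
      · subst hi
        unfold Seed.mutate
        dsimp only
        rw [Function.update_self, map_div₀, map_add, map_prod, map_prod]
        simp only [map_pow, h1]
        have key : ∀ B' : Matrix (Fin 3) (Fin 3) ℤ, (B' = markov.B ∨ B' = -markov.B) →
            ∑ j, (B' j i).toNat = 2 ∧ ∑ j, (-B' j i).toNat = 2 := by
          intro B' hB
          rcases hB with rfl | rfl
          · rw [B_eq]
            fin_cases i <;> decide
          · rw [B_eq]
            fin_cases i <;> decide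
        obtain ⟨k1, k2⟩ := key S.B h2
        have e1 : ∏ j, (2 * S.x j) ^ (S.B j i).toNat = 4 * ∏ j, S.x j ^ (S.B j i).toNat := by
          simp_rw [mul_pow]
          rw [Finset.prod_mul_distrib, Finset.prod_pow_eq_pow_sum, k1]
          norm_num
        have e2 : ∏ j, (2 * S.x j) ^ (-S.B j i).toNat = 4 * ∏ j, S.x j ^ (-S.B j i).toNat := by
          simp_rw [mul_pow]
          rw [Finset.prod_mul_distrib, Finset.prod_pow_eq_pow_sum, k2]
          norm_num
        rw [e1, e2, ← mul_add, mul_div_mul_comm]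
        norm_num
      · unfold Seed.mutate
        dsimp only
        rw [Function.update_of_ne hi]
        exact h1 i
    · have key : ∀ (k : Fin 3) (B' : Matrix (Fin 3) (Fin 3) ℤ),
          (B' = markov.B ∨ B' = -markov.B) → ∀ i j, (if i = k ∨ j = k then - B' i j else
          B' i j + (max (B' i k) 0 * max (B' k j) 0 - max (-B' i k) 0 * max (-B' k j) 0)) =
          - B' i j := by
        intro k B' hB i j
        rcases hB with rfl | rfl
        · rw [B_eq]
          fin_cases k <;> fin_cases i <;> fin_cases j <;> decide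
        · rw [B_eq]
          fin_cases k <;> fin_cases i <;> fin_cases j <;> decide
      have h3 : (S.mutate k).B = -S.B := by
        ext i j
        exact key k S.B h2 i j
      rw [h3]
      rcases h2 with h2 | h2
      · rw [h2]; exact Or.inr rfl
      · rw [h2, neg_neg]; exact Or.inl rfl

theorem pos_of_mem {f : RatF 3} (h : f ∈ clusterAlg markov) : Pos f := by
  unfold clusterAlg at h
  induction h using Algebra.adjoin_induction with
  | mem x hx =>
    obtain ⟨S, hS, i, rfl⟩ := hx
    exact ⟨0, S.x i, pos_one ((reach_inv hS).1 i), by simp⟩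
  | algebraMap c => exact ⟨c, 0, Submodule.zero_mem _, by simp⟩
  | add x y _ _ hx hy =>
    obtain ⟨c, g, hg, rfl⟩ := hx
    obtain ⟨c', g', hg', rfl⟩ := hy
    exact ⟨c + c', g + g', Submodule.add_mem _ hg hg', by rw [map_add]; ring⟩
  | mul x y _ _ hx hy =>
    obtain ⟨c, g, hg, rfl⟩ := hx
    obtain ⟨c', g', hg', rfl⟩ := hy
    refine ⟨c * c', c • g' + c' • g + g * g', ?_, ?_⟩
    · exact Submodule.add_mem _ (Submodule.add_mem _ (Submodule.smul_mem _ _ hg')
        (Submodule.smul_mem _ _ hg)) (pos_mul hg hg')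
    · rw [map_mul, Algebra.smul_def, Algebra.smul_def]; ring

theorem const_of_pos {f : RatF 3} (h : Pos f) (h0 : sig f = f) :
    ∃ c : ℂ, f = algebraMap ℂ (RatF 3) c := by
  obtain ⟨c, g, hg, rfl⟩ := h
  refine ⟨c, ?_⟩
  rw [map_add, AlgHom.commutes, add_right_inj] at h0
  have h1 : g ∈ eig 0 := by
    rw [mem_eig, h0, pow_zero, one_smul]
  have h2 : g = 0 := by
    have := disjoint_pos.le_bot (show g ∈ eig 0 ⊓ pos from ⟨h1, hg⟩)
    exact this
  rw [h2, add_zero]

theorem target_not_mem :
    (var 0 ^ 2 + var 1 ^ 2 + var 2 ^ 2 : RatF 3) / (var 0 * var 1) ∉ clusterAlg markov := by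
  intro h
  have hv : ∀ i : Fin 3, (var i : RatF 3) ≠ 0 := by
    intro i h
    have h' : algebraMap (MvPolynomial (Fin 3) ℂ) (RatF 3) (MvPolynomial.X i) = 0 := h
    rw [IsFractionRing.to_map_eq_zero_iff] at h'
    exact MvPolynomial.X_ne_zero i h'
  have h0 := hv 0
  have h1 := hv 1
  obtain ⟨c, hc⟩ := const_of_pos (pos_of_mem h) (by
    rw [map_div₀, map_add, map_add, map_mul, map_pow, map_pow, map_pow, sig_var, sig_var, sig_var]
    field_simp)
  rw [div_eq_iff (mul_ne_zero h0 h1)] at hc
  have h3 : algebraMap (MvPolynomial (Fin 3) ℂ) (RatF 3)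
      (MvPolynomial.X 0 ^ 2 + MvPolynomial.X 1 ^ 2 + MvPolynomial.X 2 ^ 2) =
      algebraMap (MvPolynomial (Fin 3) ℂ) (RatF 3)
        (MvPolynomial.C c * (MvPolynomial.X 0 * MvPolynomial.X 1)) := by
    rw [map_add, map_add, map_mul, map_mul, map_pow, map_pow, map_pow]
    rw [show algebraMap (MvPolynomial (Fin 3) ℂ) (RatF 3) (MvPolynomial.C c) =
      algebraMap ℂ (RatF 3) c from (IsScalarTower.algebraMap_apply ℂ (MvPolynomial (Fin 3) ℂ)
        (RatF 3) c).symm]
    exact hc
  have h4 := IsFractionRing.injective (MvPolynomial (Fin 3) ℂ) (RatF 3) h3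
  have h5 := congrArg (MvPolynomial.eval ![0, 0, 1]) h4
  simp at h5

/-- For every non-degenerate potential on the Markov quiver the Caldero-Chapoton algebra is
different from the cluster algebra. -/
theorem main (W : PS markov) (hW : Nondeg W) : ccAlg W ≠ clusterAlg markov := by
  intro h
  obtain ⟨a, ha⟩ := exists_generic hW
  apply target_not_mem
  rw [← h, ← ccFun_eq ha]
  exact Algebra.subset_adjoin ⟨mRep a, 0, isModule W a, rfl⟩

end Pool.Agent.TH14.CC
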