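import Pool.Agent.TH14.CC.Tensor

/-!
The representation of the Markov quiver with dimension vector `(1, 1, 0)`: it is a module over
every Jacobian algebra, and its `g`-vector.
-/

namespace Pool.Agent.TH14.CC

open Finset Quiv

/-- the index of an arrow of the Markov quiver -/
def ix (b : markov.A) : Fin 2 := Prod.snd b

@[simp] theorem ix_mk (i : Fin 3) (r : Fin 2) : ix (mk i r) = r := rfl

theorem eq_mk (b : markov.A) : b = mk (markov.s b) (ix b) := rfl

theorem t_eq (b : markov.A) : markov.t b = markov.s b + 1 := rfl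

/-- the action of the arrows -/
def mX (a : Fin 2 → ℂ) (b : markov.A) : Matrix (Fin 2) (Fin 2) ℂ :=
  fun p q => if markov.s b = 0 ∧ p = 1 ∧ q = 0 then a (ix b) else 0

theorem mX_mul (a : Fin 2 → ℂ) (b b' : markov.A) : mX a b * mX a b' = 0 := by
  ext p q
  rw [Matrix.mul_apply, Fin.sum_univ_two]
  simp [mX]

theorem mX_prod (a : Fin 2 → ℂ) (w : List markov.A) (hw : 2 ≤ w.length) :
    (w.map (mX a)).prod = 0 := by
  rcases w with _ | ⟨b, _ | ⟨b', w⟩⟩
  · simp at hw
  · simp at hw
  · rw [List.map_cons, List.map_cons, List.prod_cons, List.prod_cons, ← mul_assoc, mX_mul,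
      zero_mul]

theorem mX_supp (a : Fin 2 → ℂ) (b : markov.A) (p q : Fin 2) (h : mX a b p q ≠ 0) :
    (![0, 1] : Fin 2 → Fin 3) p = markov.t b ∧ (![0, 1] : Fin 2 → Fin 3) q = markov.s b := by
  unfold mX at h
  split_ifs at h with h1
  · obtain ⟨h1, rfl, rfl⟩ := h1
    rw [t_eq, h1]
    exact ⟨rfl, rfl⟩
  · exact absurd rfl h

/-- The representation with the space `ℂ` at the vertices `0` and `1`, with the arrows `(0, r)`
acting by `a r`. -/
def mRep (a : Fin 2 → ℂ) : Repn markov where
  N := 2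
  v := ![0, 1]
  X := mX a
  supp := mX_supp a
  nilp := ⟨2, mX_prod a⟩

/-! ### Jacobian relations -/

theorem cyc1 (W : PS markov) (i : Fin 3) (b : markov.A) : W.c i i [b] = 0 := by
  by_contra hc
  have h := W.supp i i _ hc
  have h2 : markov.IsPath ([] ++ [b]) i i := h
  exact markov_twoAcyclic.1 b (h2.last.trans h.head.symm)

theorem cyc2 (W : PS markov) (i : Fin 3) (b c : markov.A) : W.c i i [b, c] = 0 := by
  by_contra hc
  have h := W.supp i i _ hc
  have h2 : markov.IsPath ([b] ++ [c]) i i := h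
  exact markov_twoAcyclic.2 b c ⟨h.tail.head.symm, h.head.trans h2.last.symm⟩

theorem cycDer_nil (W : PS markov) (b : markov.A) : cycDeriv W b [] = 0 := by
  unfold cycDeriv
  simp [cyc1]

theorem cycDer_one (W : PS markov) (b c : markov.A) : cycDeriv W b [c] = 0 := by
  unfold cycDeriv
  simp [cyc2, Finset.sum_range_succ]

theorem isModule (W : PS markov) (a : Fin 2 → ℂ) : (mRep a).IsModule W := by
  intro b
  rw [← finsum_zero]
  congr 1
  funext w
  rcases w with _ | ⟨c, _ | ⟨c', w⟩⟩
  · rw [cycDer_nil, zero_smul]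
  · rw [cycDer_one, zero_smul]
  · have : ((c :: c' :: w).map (mRep a).X).prod = 0 := mX_prod a _ (by simp)
    rw [this, smul_zero]

theorem sum_first (W : PS markov) (b : markov.A) (w : List markov.A) :
    ∑ i, W.c i i (b :: w) = W.c (markov.t b) (markov.t b) (b :: w) := by
  rw [Finset.sum_eq_single (markov.t b)]
  · intro i _ hi
    by_contra hc
    exact hi (W.supp _ _ _ hc).head.symm
  · simp

theorem cycDer_two (W : PS markov) (r0 r1 r2 : Fin 2) :
    cycDeriv W (mk 1 r1) [mk 0 r0, mk 2 r2] = cub W r0 r1 r2 := by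
  unfold cycDeriv cub tri PS.toM
  rw [show ([mk 0 r0, mk 2 r2] : List markov.A).length + 1 = 3 from rfl]
  simp only [Finset.sum_range_succ, Finset.range_zero, Finset.sum_empty, zero_add,
    List.drop_zero, List.take_zero, List.cons_append, List.nil_append, List.drop_succ_cons,
    List.take_succ_cons, sum_first]
  ring

/-! ### Dimensions -/

theorem dimSpan_zero {V : Type} [AddCommGroup V] [Module ℂ V] {S : Set V}
    (h : ∀ x ∈ S, x = 0) : dimSpan S = 0 := by
  unfold dimSpan
  rw [Submodule.span_eq_bot.2 h, finrank_bot]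
  rfl

theorem dimSpan_range {V U : Type} [AddCommGroup V] [Module ℂ V] [AddCommGroup U] [Module ℂ U]
    {S : Set V} (F : U →ₗ[ℂ] V) (hF : Function.Injective F) (h : S = Set.range F) :
    dimSpan S = Module.finrank ℂ U := by
  unfold dimSpan
  rw [h, ← LinearMap.coe_range, Submodule.span_eq, LinearMap.finrank_range_of_inj hF]

variable {a : Fin 2 → ℂ}

/-! ### Homomorphisms from the simple representations -/

/-- the conditions defining the homomorphisms from a simple representation -/
theorem mem_homs {i : Fin 3} {h : Matrix (Fin 2) (Fin 1) ℂ} :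
    h ∈ Repn.homs (Repn.simple markov i) (mRep a) ↔
      (∀ p q, h p q ≠ 0 → (![0, 1] : Fin 2 → Fin 3) p = i) ∧ ∀ b, mX a b * h = 0 := by
  have h0 : h * (0 : Matrix (Fin 1) (Fin 1) ℂ) = 0 := Matrix.mul_zero h
  constructor
  · rintro ⟨h1, h2⟩
    exact ⟨h1, fun b => (h2 b).trans h0⟩
  · rintro ⟨h1, h2⟩
    exact ⟨h1, fun b => (h2 b).trans h0.symm⟩

/-- the homomorphisms from a simple representation -/
def hs (a : Fin 2 → ℂ) (i : Fin 3) : Set (Matrix (Fin 2) (Fin 1) ℂ) :=
  {h | (∀ p q, h p q ≠ 0 → (![0, 1] : Fin 2 → Fin 3) p = i) ∧ ∀ b, mX a b * h = 0}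

theorem dimHom_eq (i : Fin 3) :
    Repn.dimHom (Repn.simple markov i) (mRep a) = dimSpan (hs a i) := by
  show dimSpan (V := Matrix (Fin 2) (Fin 1) ℂ) (Repn.homs (Repn.simple markov i) (mRep a)) = _
  congr 1
  ext h
  exact mem_homs

theorem mX_mul_apply (b : markov.A) (h : Matrix (Fin 2) (Fin 1) ℂ) (p : Fin 2) (q : Fin 1) :
    (mX a b * h) p q = if markov.s b = 0 ∧ p = 1 then a (ix b) * h 0 q else 0 := by
  rw [Matrix.mul_apply, Fin.sum_univ_two]
  simp only [mX]
  by_cases h1 : markov.s b = 0 ∧ p = 1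
  · rw [if_pos h1, if_pos ⟨h1.1, h1.2, trivial⟩, if_neg (by simp)]
    ring
  · rw [if_neg h1, if_neg (fun h => h1 ⟨h.1, h.2.1⟩), if_neg (by simp)]
    ring

theorem hom_zero {r : Fin 2} (hr : a r ≠ 0) :
    Repn.dimHom (Repn.simple markov 0) (mRep a) = 0 := by
  rw [dimHom_eq]
  refine dimSpan_zero fun h hh => ?_
  obtain ⟨h1, h2⟩ := hh
  ext p q
  fin_cases p
  · have e : (mX a (mk 0 r) * h) 1 q = 0 := by rw [h2]; rfl
    rw [mX_mul_apply, if_pos ⟨rfl, rfl⟩, ix_mk] at e
    exact (mul_eq_zero.1 e).resolve_left hr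
  · by_contra hc
    exact absurd (h1 1 q hc) (by decide)

/-- the homomorphisms from the simple representation at the vertex `1` -/
def hFun (c : ℂ) : Matrix (Fin 2) (Fin 1) ℂ := fun p _ => if p = 1 then c else 0

/-- the homomorphisms from the simple representation at the vertex `1` -/
def hF : ℂ →ₗ[ℂ] Matrix (Fin 2) (Fin 1) ℂ where
  toFun := hFun
  map_add' x y := by
    ext p q
    show (if p = 1 then x + y else 0) = (if p = 1 then x else 0) + (if p = 1 then y else 0)
    split_ifs
    · rfl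
    · rw [add_zero]
  map_smul' x y := by
    ext p q
    show (if p = 1 then x * y else 0) = x * (if p = 1 then y else 0)
    split_ifs
    · rfl
    · rw [mul_zero]

theorem hF_apply (c : ℂ) (p : Fin 2) (q : Fin 1) : hF c p q = if p = 1 then c else 0 := rfl

theorem hom_one : Repn.dimHom (Repn.simple markov 1) (mRep a) = 1 := by
  rw [dimHom_eq]
  refine (dimSpan_range hF ?_ ?_).trans (by rw [Module.finrank_self]; rfl)
  · intro x y hxy
    have := congrFun (congrFun hxy 1) 0
    rw [hF_apply, hF_apply, if_pos rfl, if_pos rfl] at this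
    exact this
  · ext h
    constructor
    · rintro ⟨h1, -⟩
      refine ⟨h 1 0, ?_⟩
      ext p q
      rw [hF_apply, Subsingleton.elim q 0]
      fin_cases p
      · rw [if_neg (by decide)]
        by_contra hc
        exact absurd (h1 0 0 (Ne.symm hc)) (by decide)
      · exact if_pos rfl
    · rintro ⟨c, rfl⟩
      refine ⟨fun p q h => ?_, fun b => ?_⟩
      · rw [hF_apply] at h
        split_ifs at h with h1
        · rw [h1]; rfl
        · exact absurd rfl h
      · ext p q
        have e : hF c 0 q = 0 := by rw [hF_apply, if_neg (by decide)]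
        rw [mX_mul_apply, e, mul_zero, ite_self]
        rfl

theorem hom_two : Repn.dimHom (Repn.simple markov 2) (mRep a) = 0 := by
  rw [dimHom_eq]
  refine dimSpan_zero fun h hh => ?_
  obtain ⟨h1, h2⟩ := hh
  ext p q
  by_contra hc
  have h3 := h1 p q hc
  have h4 : ∀ p : Fin 2, (![0, 1] : Fin 2 → Fin 3) p ≠ 2 := by decide
  exact h4 p h3

/-! ### Extensions -/

/-- the block matrices of an extension of a simple representation by `M` -/
def blk (a : Fin 2 → ℂ) (θ : markov.A → Matrix (Fin 2) (Fin 1) ℂ) (b : markov.A) :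
    Matrix (Fin 2 ⊕ Fin 1) (Fin 2 ⊕ Fin 1) ℂ :=
  Matrix.fromBlocks (mX a b) (θ b) 0 0

theorem blk_mul (θ : markov.A → Matrix (Fin 2) (Fin 1) ℂ) (b b' : markov.A) :
    blk a θ b * blk a θ b' = Matrix.fromBlocks 0 (mX a b * θ b') 0 0 := by
  unfold blk
  rw [Matrix.fromBlocks_multiply, mX_mul, Matrix.mul_zero, Matrix.mul_zero, Matrix.zero_mul,
    Matrix.zero_mul, Matrix.zero_mul, add_zero, add_zero, add_zero, Matrix.mul_zero, add_zero]

theorem blk_mul_three (θ : markov.A → Matrix (Fin 2) (Fin 1) ℂ) (b b' b'' : markov.A) :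
    blk a θ b * blk a θ b' * blk a θ b'' = 0 := by
  rw [blk_mul]
  unfold blk
  rw [Matrix.fromBlocks_multiply]
  simp

theorem blk_long (θ : markov.A → Matrix (Fin 2) (Fin 1) ℂ) (b b' b'' : markov.A)
    (w : List markov.A) : ((b :: b' :: b'' :: w).map (blk a θ)).prod = 0 := by
  rw [List.map_cons, List.map_cons, List.map_cons, List.prod_cons, List.prod_cons,
    List.prod_cons, ← mul_assoc, ← mul_assoc, blk_mul_three, zero_mul]

theorem blk_two (θ : markov.A → Matrix (Fin 2) (Fin 1) ℂ) (b b' : markov.A) :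
    ([b, b'].map (blk a θ)).prod = Matrix.fromBlocks 0 (mX a b * θ b') 0 0 := by
  rw [List.map_cons, List.map_cons, List.map_nil, List.prod_cons, List.prod_cons, List.prod_nil,
    mul_one, blk_mul]

theorem mem_exts {W : PS markov} {i : Fin 3} {θ : markov.A → Matrix (Fin 2) (Fin 1) ℂ} :
    θ ∈ Repn.exts W (Repn.simple markov i) (mRep a) ↔
      (∀ b p q, θ b p q ≠ 0 → (![0, 1] : Fin 2 → Fin 3) p = markov.t b ∧ i = markov.s b) ∧
      ∀ b, ∑ᶠ w : List markov.A, cycDeriv W b w • (w.map (blk a θ)).prod = 0 := Iff.rfl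

theorem relation_two (W : PS markov) (b : markov.A) (θ : markov.A → Matrix (Fin 2) (Fin 1) ℂ) :
    ∑ᶠ w : List markov.A, cycDeriv W b w • (w.map (blk a θ)).prod =
    ∑ p : markov.A × markov.A, cycDeriv W b [p.1, p.2] •
      Matrix.fromBlocks 0 (mX a p.1 * θ p.2) 0 0 := by
  classical
  have hinj : Function.Injective (fun p : markov.A × markov.A => [p.1, p.2]) := by
    rintro ⟨x, y⟩ ⟨x', y'⟩ h
    simp only [List.cons.injEq, and_true] at h
    exact Prod.ext h.1 h.2
  rw [finsum_eq_sum_of_support_subset (s := Finset.univ.image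
    (fun p : markov.A × markov.A => [p.1, p.2]))]
  · rw [Finset.sum_image fun x _ y _ h => hinj h]
    refine Finset.sum_congr rfl fun p _ => ?_
    rw [blk_two]
  · intro w hw
    rcases w with _ | ⟨c, _ | ⟨c', _ | ⟨c'', w⟩⟩⟩
    · exfalso; apply hw; dsimp only; rw [cycDer_nil, zero_smul]
    · exfalso; apply hw; dsimp only; rw [cycDer_one, zero_smul]
    · rw [Finset.coe_image]
      exact ⟨(c, c'), by simp, rfl⟩
    · exfalso; apply hw; dsimp only
      rw [blk_long, smul_zero]

theorem exts_relation {W : PS markov} {i : Fin 3} {θ : markov.A → Matrix (Fin 2) (Fin 1) ℂ}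
    (h : θ ∈ Repn.exts W (Repn.simple markov i) (mRep a)) (b : markov.A) :
    ∑ p : markov.A × markov.A, cycDeriv W b [p.1, p.2] *
      (if markov.s p.1 = 0 then a (ix p.1) * θ p.2 0 0 else 0) = 0 := by
  have h1 := (mem_exts.1 h).2 b
  rw [relation_two] at h1
  have h2 := congrFun (congrFun h1 (Sum.inl 1)) (Sum.inr 0)
  rw [Matrix.sum_apply] at h2
  rw [Matrix.zero_apply] at h2
  refine Eq.trans ?_ h2
  refine Finset.sum_congr rfl fun p _ => ?_
  rw [Matrix.smul_apply, Matrix.fromBlocks_apply₁₂, mX_mul_apply, smul_eq_mul]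
  congr 1
  exact if_congr (by simp) rfl rfl

/-- the extensions of a simple representation -/
def es (W : PS markov) (a : Fin 2 → ℂ) (i : Fin 3) :
    Set (markov.A → Matrix (Fin 2) (Fin 1) ℂ) :=
  Repn.exts W (Repn.simple markov i) (mRep a)

/-- the trivial extensions of a simple representation -/
def ts (a : Fin 2 → ℂ) (i : Fin 3) : Set (markov.A → Matrix (Fin 2) (Fin 1) ℂ) :=
  {θ | ∃ h : Matrix (Fin 2) (Fin 1) ℂ, (∀ p q, h p q ≠ 0 → (![0, 1] : Fin 2 → Fin 3) p = i) ∧
        ∀ b, θ b = mX a b * h}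

theorem ts_eq (i : Fin 3) : Repn.trivExts (Repn.simple markov i) (mRep a) = ts a i := by
  have h0 : ∀ h : Matrix (Fin 2) (Fin 1) ℂ, h * (0 : Matrix (Fin 1) (Fin 1) ℂ) = 0 :=
    fun h => Matrix.mul_zero h
  refine Set.ext fun (θ : markov.A → Matrix (Fin 2) (Fin 1) ℂ) => ?_
  constructor
  · rintro ⟨(h : Matrix (Fin 2) (Fin 1) ℂ), h1, h2⟩
    refine ⟨h, h1, fun b => (h2 b).trans ?_⟩
    have : (mX a b * h - h * (0 : Matrix (Fin 1) (Fin 1) ℂ)) = mX a b * h := by
      rw [h0, sub_zero]
    exact this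
  · rintro ⟨h, h1, h2⟩
    refine ⟨h, h1, fun b => (h2 b).trans ?_⟩
    have : mX a b * h = (mX a b * h - h * (0 : Matrix (Fin 1) (Fin 1) ℂ)) := by
      rw [h0, sub_zero]
    exact this

theorem dimExt_eq (W : PS markov) (i : Fin 3) :
    Repn.dimExt W (Repn.simple markov i) (mRep a) = dimSpan (es W a i) - dimSpan (ts a i) := by
  unfold Repn.dimExt
  rw [ts_eq]
  rfl

theorem triv_zero_of_ne {i : Fin 3} (hi : i ≠ 0) :
    ∀ θ : markov.A → Matrix (Fin 2) (Fin 1) ℂ,
      θ ∈ ts a i → θ = 0 := by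
  intro θ hθ
  obtain ⟨h, h1, h2⟩ := hθ
  funext b
  ext p q
  rw [h2, mX_mul_apply]
  have : h 0 q = 0 := by
    by_contra hc
    exact hi (h1 0 q hc).symm
  rw [this, mul_zero, ite_self]
  rfl

theorem ext_one (W : PS markov) :
    Repn.dimExt W (Repn.simple markov 1) (mRep a) = 0 := by
  have e1 : dimSpan (es W a 1) = 0 := by
    refine dimSpan_zero fun θ hθ => ?_
    obtain ⟨h1, -⟩ := mem_exts.1 hθ
    funext b
    ext p q
    by_contra hc
    obtain ⟨h3, h4⟩ := h1 b p q hc
    rw [t_eq, ← h4] at h3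
    have h5 : ∀ p : Fin 2, (![0, 1] : Fin 2 → Fin 3) p ≠ 1 + 1 := by decide
    exact h5 p h3
  have e2 : dimSpan (ts a 1) = 0 :=
    dimSpan_zero (triv_zero_of_ne (by decide))
  rw [dimExt_eq, e1, e2, sub_zero]

theorem ext_two {W : PS markov}
    (ha : (∑ r, a r * cub W r 0 0) * (∑ r, a r * cub W r 1 1) -
      (∑ r, a r * cub W r 0 1) * (∑ r, a r * cub W r 1 0) ≠ 0) :
    Repn.dimExt W (Repn.simple markov 2) (mRep a) = 0 := by
  have e2 : dimSpan (ts a 2) = 0 :=
    dimSpan_zero (triv_zero_of_ne (by decide))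
  have e1 : dimSpan (es W a 2) = 0 := by
    refine dimSpan_zero fun θ hθ => ?_
    obtain ⟨h1, -⟩ := mem_exts.1 hθ
    have hz : ∀ b, markov.s b ≠ 2 → θ b 0 0 = 0 := by
      intro b hb
      by_contra hc
      exact hb (h1 b 0 0 hc).2.symm
    have key2 : ∀ r1, ∑ r2, (∑ r0, a r0 * cub W r0 r1 r2) * θ (mk 2 r2) 0 0 = 0 := by
      intro r1
      have h5 := exts_relation hθ (mk 1 r1)
      have e1 : ∀ f : markov.A → ℂ, ∑ b, f b = ∑ i : Fin 3, ∑ r : Fin 2, f (mk i r) := by
        intro f
        exact Fintype.sum_prod_type (f := fun p : Fin 3 × Fin 2 => f p)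
      have h7 : ∑ r0 : Fin 2, ∑ r2 : Fin 2, cycDeriv W (mk 1 r1) [mk 0 r0, mk 2 r2] *
          (a r0 * θ (mk 2 r2) 0 0) = 0 := by
        rw [← h5, Fintype.sum_prod_type, e1, Fin.sum_univ_three]
        have e2 : ∀ (i : Fin 3), i ≠ 0 → ∑ r : Fin 2, ∑ y : markov.A,
            cycDeriv W (mk 1 r1) [mk i r, y] *
              (if markov.s (mk i r) = 0 then a (ix (mk i r)) * θ y 0 0 else 0) = 0 := by
          intro i hi
          refine Finset.sum_eq_zero fun r _ => Finset.sum_eq_zero fun y _ => ?_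
          rw [if_neg (by simpa using hi), mul_zero]
        have e4 := e2 1 (by decide)
        have e5 := e2 2 (by decide)
        dsimp only at e4 e5 ⊢
        rw [e4, e5, add_zero, add_zero]
        refine Finset.sum_congr rfl fun r0 _ => ?_
        rw [e1, Fin.sum_univ_three]
        have e3 : ∀ (i : Fin 3), i ≠ 2 → ∑ r : Fin 2,
            cycDeriv W (mk 1 r1) [mk 0 r0, mk i r] *
              (if markov.s (mk 0 r0) = 0 then a (ix (mk 0 r0)) * θ (mk i r) 0 0
                else 0) = 0 := by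
          intro i hi
          refine Finset.sum_eq_zero fun r _ => ?_
          rw [hz (mk i r) (by simpa using hi)]
          simp
        rw [e3 0 (by decide), e3 1 (by decide), zero_add, zero_add]
        refine Finset.sum_congr rfl fun r2 _ => ?_
        rw [if_pos (mk_s 0 r0), ix_mk]
      have h8 : ∀ r0 r2, cycDeriv W (mk 1 r1) [mk 0 r0, mk 2 r2] * (a r0 * θ (mk 2 r2) 0 0) =
          (a r0 * cub W r0 r1 r2) * θ (mk 2 r2) 0 0 := by
        intro r0 r2
        rw [cycDer_two]
        ring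
      simp_rw [h8] at h7
      rw [Finset.sum_comm] at h7
      rw [← h7]
      exact Finset.sum_congr rfl fun r2 _ => by rw [Finset.sum_mul]
    have k0 := key2 0
    have k1 := key2 1
    rw [Fin.sum_univ_two] at k0 k1
    have g0 : θ (mk 2 0) 0 0 = 0 := by
      have : ((∑ r, a r * cub W r 0 0) * (∑ r, a r * cub W r 1 1) -
        (∑ r, a r * cub W r 0 1) * (∑ r, a r * cub W r 1 0)) * θ (mk 2 0) 0 0 = 0 := by
        linear_combination (∑ r, a r * cub W r 1 1) * k0 - (∑ r, a r * cub W r 0 1) * k1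
      exact (mul_eq_zero.1 this).resolve_left ha
    have g1 : θ (mk 2 1) 0 0 = 0 := by
      have : ((∑ r, a r * cub W r 0 0) * (∑ r, a r * cub W r 1 1) -
        (∑ r, a r * cub W r 0 1) * (∑ r, a r * cub W r 1 0)) * θ (mk 2 1) 0 0 = 0 := by
        linear_combination (∑ r, a r * cub W r 0 0) * k1 - (∑ r, a r * cub W r 1 0) * k0
      exact (mul_eq_zero.1 this).resolve_left ha
    have hg : ∀ r, θ (mk 2 r) 0 0 = 0 := by
      intro r; fin_cases r
      · exact g0
      · exact g1
    funext b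
    ext p q
    by_contra hc
    obtain ⟨h3, h4⟩ := h1 b p q hc
    rw [t_eq, ← h4] at h3
    have h5 : ∀ p : Fin 2, (![0, 1] : Fin 2 → Fin 3) p = 2 + 1 → p = 0 := by decide
    have h5' := h5 p h3
    subst h5'
    have h6 : b = mk 2 (ix b) := by rw [h4]; rfl
    rw [Subsingleton.elim q 0, h6, hg] at hc
    exact hc rfl
  rw [dimExt_eq, e1, e2, sub_zero]

/-- The family with values `(0, t r)` on the arrows `(0, r)`. -/
def famFun (t : Fin 2 → ℂ) : markov.A → Matrix (Fin 2) (Fin 1) ℂ :=
  fun b p _ => if markov.s b = 0 ∧ p = 1 then t (ix b) else 0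

/-- The family with values `(0, t r)` on the arrows `(0, r)`. -/
def fam : (Fin 2 → ℂ) →ₗ[ℂ] (markov.A → Matrix (Fin 2) (Fin 1) ℂ) where
  toFun := famFun
  map_add' x y := by
    funext b
    ext p q
    show (if markov.s b = 0 ∧ p = 1 then x (ix b) + y (ix b) else 0) =
      (if markov.s b = 0 ∧ p = 1 then x (ix b) else 0) +
        (if markov.s b = 0 ∧ p = 1 then y (ix b) else 0)
    split_ifs
    · rfl
    · rw [add_zero]
  map_smul' x y := by
    funext b
    ext p q
    show (if markov.s b = 0 ∧ p = 1 then x * y (ix b) else 0) =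
      x * (if markov.s b = 0 ∧ p = 1 then y (ix b) else 0)
    split_ifs
    · rfl
    · rw [mul_zero]

theorem fam_apply (t : Fin 2 → ℂ) (b : markov.A) (p : Fin 2) (q : Fin 1) :
    fam t b p q = if markov.s b = 0 ∧ p = 1 then t (ix b) else 0 := rfl

theorem fam_inj : Function.Injective fam := by
  intro x y h
  funext r
  have := congrFun (congrFun (congrFun h (mk 0 r)) 1) 0
  rw [fam_apply, fam_apply, if_pos ⟨rfl, rfl⟩, if_pos ⟨rfl, rfl⟩] at this
  exact this

theorem exts_zero (W : PS markov) :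
    dimSpan (es W a 0) = 2 := by
  refine (dimSpan_range fam fam_inj ?_).trans (by simp)
  ext θ
  refine Iff.trans mem_exts ?_
  constructor
  · rintro ⟨h1, -⟩
    refine ⟨fun r => θ (mk 0 r) 1 0, ?_⟩
    funext b
    ext p q
    rw [fam_apply, Subsingleton.elim q 0]
    by_cases h : markov.s b = 0 ∧ p = 1
    · rw [if_pos h, h.2]
      have h6 : b = mk 0 (ix b) := by rw [← h.1]; rfl
      rw [← h6]
    · rw [if_neg h]
      by_contra hc
      obtain ⟨h3, h4⟩ := h1 b p 0 (Ne.symm hc)
      apply h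
      refine ⟨h4.symm, ?_⟩
      rw [t_eq, ← h4] at h3
      have h5 : ∀ p : Fin 2, (![0, 1] : Fin 2 → Fin 3) p = 0 + 1 → p = 1 := by decide
      exact h5 p h3
  · rintro ⟨t, rfl⟩
    refine ⟨fun b p q h => ?_, fun b => ?_⟩
    · rw [fam_apply] at h
      split_ifs at h with h1
      · rw [t_eq, h1.1, h1.2]
        exact ⟨rfl, rfl⟩
      · exact absurd rfl h
    · rw [relation_two]
      refine Finset.sum_eq_zero fun p _ => ?_
      have : mX a p.1 * fam t p.2 = 0 := by
        ext r s
        have e : fam t p.2 0 s = 0 := if_neg (by simp)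
        rw [mX_mul_apply, e, mul_zero, ite_self]
        rfl
      rw [this, Matrix.fromBlocks_zero, smul_zero]

/-- the map `h` with value `c` at the vertex `0` -/
def zF (c : ℂ) : Matrix (Fin 2) (Fin 1) ℂ := fun p _ => if p = 0 then c else 0

theorem triv_zero {r : Fin 2} (hr : a r ≠ 0) :
    dimSpan (ts a 0) = 1 := by
  refine (dimSpan_range (fam ∘ₗ LinearMap.toSpanSingleton ℂ (Fin 2 → ℂ) a) ?_ ?_).trans
    (by rw [Module.finrank_self]; rfl)
  · rw [LinearMap.coe_comp]
    refine fam_inj.comp ?_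
    intro x y hxy
    have := congrFun hxy r
    rw [LinearMap.toSpanSingleton_apply, LinearMap.toSpanSingleton_apply, Pi.smul_apply,
      Pi.smul_apply, smul_eq_mul, smul_eq_mul] at this
    exact mul_right_cancel₀ hr this
  · ext θ
    constructor
    · rintro ⟨h, h1, h2⟩
      refine ⟨h 0 0, ?_⟩
      funext b
      ext p q
      rw [h2, mX_mul_apply, LinearMap.comp_apply, fam_apply, LinearMap.toSpanSingleton_apply,
        Pi.smul_apply, smul_eq_mul, Subsingleton.elim q 0, mul_comm]
    · rintro ⟨c, rfl⟩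
      refine ⟨zF c, fun p q h => ?_, fun b => ?_⟩
      · unfold zF at h
        split_ifs at h with h1
        · rw [h1]; rfl
        · exact absurd rfl h
      · ext p q
        have e : zF c 0 q = c := if_pos rfl
        rw [mX_mul_apply, LinearMap.comp_apply, fam_apply, LinearMap.toSpanSingleton_apply,
          Pi.smul_apply, smul_eq_mul, e, mul_comm]

theorem ext_zero (W : PS markov) {r : Fin 2} (hr : a r ≠ 0) :
    Repn.dimExt W (Repn.simple markov 0) (mRep a) = 1 := by
  rw [dimExt_eq, exts_zero, triv_zero hr]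
  norm_num

/-- The `g`-vector of the representation. -/
theorem gVec_eq {W : PS markov}
    (ha : (∑ r, a r * cub W r 0 0) * (∑ r, a r * cub W r 1 1) -
      (∑ r, a r * cub W r 0 1) * (∑ r, a r * cub W r 1 0) ≠ 0) :
    (mRep a).gVec W 0 = ![1, -1, 0] := by
  obtain ⟨r, hr⟩ : ∃ r, a r ≠ 0 := by
    by_contra hc
    push Not at hc
    apply ha
    simp [hc]
  funext i
  unfold Repn.gVec
  fin_cases i
  · show -(Repn.dimHom (Repn.simple markov 0) (mRep a)) +
      Repn.dimExt W (Repn.simple markov 0) (mRep a) + ((0 : ℕ) : ℤ) = 1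
    rw [hom_zero hr, ext_zero W hr]; norm_num
  · show -(Repn.dimHom (Repn.simple markov 1) (mRep a)) +
      Repn.dimExt W (Repn.simple markov 1) (mRep a) + ((0 : ℕ) : ℤ) = -1
    rw [hom_one, ext_one W]; norm_num
  · show -(Repn.dimHom (Repn.simple markov 2) (mRep a)) +
      Repn.dimExt W (Repn.simple markov 2) (mRep a) + ((0 : ℕ) : ℤ) = 0
    rw [hom_two, ext_two ha]; norm_num

end Pool.Agent.TH14.CC
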