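import Pool.Agent.TH14.CC.Mut

/-!
The Markov quiver: non-degenerate potentials have a concise cubic part.
-/

namespace Pool.Agent.TH14.CC

open Finset Quiv

/-- The Markov quiver: three vertices, and two arrows `(i, 0)`, `(i, 1)` from `i` to `i + 1` for
each vertex `i`. -/
def markov : Quiv 3 where
  A := Fin 3 × Fin 2
  fin := inferInstance
  dec := inferInstance
  s := fun a => a.1
  t := fun a => a.1 + 1

/-- the arrows of the Markov quiver -/
def mk (i : Fin 3) (r : Fin 2) : markov.A := (i, r)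

@[simp] theorem mk_s (i : Fin 3) (r : Fin 2) : markov.s (mk i r) = i := rfl
@[simp] theorem mk_t (i : Fin 3) (r : Fin 2) : markov.t (mk i r) = i + 1 := rfl

theorem markov_twoAcyclic : markov.TwoAcyclic := by
  have h1 : ∀ i : Fin 3, i ≠ i + 1 := by decide
  have h2 : ∀ i j : Fin 3, ¬ (i = j + 1 ∧ i + 1 = j) := by decide
  exact ⟨fun a => h1 a.1, fun a b => h2 a.1 b.1⟩

variable {n : ℕ}

/-- The sum of the coefficients over the rotation class of a cyclic path of length three. -/
def tri {Q : Quiv n} (F : Matrix (Fin n) (Fin n) (NC Q.A)) (c₀ c₁ c₂ : Q.A) : ℂ :=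
  F (Q.t c₀) (Q.t c₀) [c₀, c₁, c₂] + F (Q.t c₁) (Q.t c₁) [c₁, c₂, c₀] +
    F (Q.t c₂) (Q.t c₂) [c₂, c₀, c₁]

theorem tri_rot {Q : Quiv n} (F : Matrix (Fin n) (Fin n) (NC Q.A)) (c₀ c₁ c₂ : Q.A) :
    tri F c₁ c₂ c₀ = tri F c₀ c₁ c₂ := by
  unfold tri; ring

theorem tri_cycDiff {Q : Quiv n} {c₀ c₁ c₂ : Q.A} (h0 : Q.s c₀ = Q.t c₁) (h1 : Q.s c₁ = Q.t c₂)
    (h2 : Q.s c₂ = Q.t c₀)
    {D : Matrix (Fin n) (Fin n) (NC Q.A)} (hD : D ∈ Submodule.span ℂ Q.cycDiffs) :
    tri D c₀ c₁ c₂ = 0 := by
  classical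
  induction hD using Submodule.span_induction with
  | mem D hD =>
    obtain ⟨a, v, hp, rfl⟩ := hD
    simp only [tri, Matrix.sub_apply, NC.sub_apply, Matrix.single_apply]
    have e1 : ∀ (x y z : Q.A), (if Q.t a = Q.t x ∧ Q.t a = Q.t x then
        NC.word (a :: v) else (0 : NC Q.A)) [x, y, z] =
        if a = x ∧ v = [y, z] then 1 else 0 := by
      intro x y z
      by_cases hj : Q.t a = Q.t x
      · simp only [hj, and_self, if_true, NC.word_apply, List.cons.injEq]
        congr 1
        simp only [eq_iff_iff]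
        tauto
      · rw [if_neg (fun h => hj h.1), if_neg (fun h => hj (by rw [h.1]))]
        rfl
    have e2 : ∀ (x y z : Q.A), Q.s z = Q.t x → (if Q.s a = Q.t x ∧ Q.s a = Q.t x then
        NC.word (v ++ [a]) else (0 : NC Q.A)) [x, y, z] =
        if a = z ∧ v = [x, y] then 1 else 0 := by
      intro x y z hz
      by_cases hj : Q.s a = Q.t x
      · simp only [hj, and_self, if_true, NC.word_apply]
        congr 1
        simp only [eq_iff_iff]
        constructor
        · intro h
          have : [x, y] ++ [z] = v ++ [a] := h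
          obtain ⟨h3, h4⟩ := List.append_inj' this rfl
          simp only [List.cons.injEq, and_true] at h4
          exact ⟨h4.symm, h3.symm⟩
        · rintro ⟨rfl, rfl⟩; rfl
      · rw [if_neg (fun h => hj h.1), if_neg (fun h => hj (by rw [h.1, hz]))]
        rfl
    rw [e1, e1, e1, e2 _ _ _ h2, e2 _ _ _ h0, e2 _ _ _ h1]
    ring
  | zero => simp [tri]
  | add D D' _ _ ih ih' =>
    have : tri (D + D') c₀ c₁ c₂ = tri D c₀ c₁ c₂ + tri D' c₀ c₁ c₂ := by
      simp only [tri, Matrix.add_apply, NC.add_apply]; ring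
    rw [this, ih, ih', add_zero]
  | smul c D _ ih =>
    have : tri (c • D) c₀ c₁ c₂ = c * tri D c₀ c₁ c₂ := by
      simp only [tri, Matrix.smul_apply, NC.smul_apply]; ring
    rw [this, ih, mul_zero]

theorem tri_cycEq {Q : Quiv n} {F G : Q.CPA} (h : CycEq F G) {c₀ c₁ c₂ : Q.A}
    (h0 : Q.s c₀ = Q.t c₁) (h1 : Q.s c₁ = Q.t c₂) (h2 : Q.s c₂ = Q.t c₀) :
    tri F.1 c₀ c₁ c₂ = tri G.1 c₀ c₁ c₂ := by
  obtain ⟨D, hD, hw⟩ := h 4
  have h0 := tri_cycDiff h0 h1 h2 hD
  have a1 := hw (Q.t c₀) (Q.t c₀) [c₀, c₁, c₂] (by simp)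
  have a2 := hw (Q.t c₁) (Q.t c₁) [c₁, c₂, c₀] (by simp)
  have a3 := hw (Q.t c₂) (Q.t c₂) [c₂, c₀, c₁] (by simp)
  simp only [Matrix.sub_apply, NC.sub_apply] at a1 a2 a3
  unfold tri at *
  linear_combination a1 + a2 + a3 + h0

theorem premut_short {Q : Quiv n} {k : Fin n} {W : PS Q} {V : PS (Q.premut k)}
    (hV : IsPremutPot Q k W V) (j i : Fin n)
    (w : List (Q.premut k).A) (hw : w.length ≤ 2) :
    V.c j i w = (unfoldWord Q k w).elim 0 (fun x => W.c j i x) := by
  rw [hV, add_eq_left]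
  refine Finset.sum_eq_zero fun b _ => Finset.sum_eq_zero fun a _ => ?_
  rw [if_neg]
  rintro ⟨-, -, rfl⟩
  simp at hw

theorem premut_noLoops (k : Fin 3) (a : (markov.premut k).A) :
    (markov.premut k).s a ≠ (markov.premut k).t a := by
  have h1 : ∀ i : Fin 3, i ≠ i + 1 := by decide
  have h2 : ∀ i j k : Fin 3, i = k → j + 1 = k → j ≠ i + 1 := by decide
  rcases a with a | ⟨⟨b, hb⟩, ⟨a, ha⟩⟩ | a
  · exact h1 a.1.1
  · exact h2 b.1 a.1 k hb ha
  · exact (h1 a.1.1).symm

theorem premut_card (k : Fin 3) :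
    Fintype.card {α : (markov.premut k).A // (markov.premut k).t α = k + 2 ∧
      (markov.premut k).s α = k + 1} <
    Fintype.card {α : (markov.premut k).A // (markov.premut k).t α = k + 1 ∧
      (markov.premut k).s α = k + 2} := by
  revert k
  decide

/-- Injectivity of the flattenings of the cubic part. -/
theorem flat {W : PS markov} (k : Fin 3) {Q' : Quiv 3} {W' : PS Q'} (hm : IsMut k W W')
    (hQ' : Q'.TwoAcyclic) (y : Fin 2 → ℂ)
    (H : ∀ r' r, ∑ r'', y r'' * tri W.toM (mk (k + 1) r'') (mk k r') (mk (k + 2) r) = 0) :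
    ∀ r, y r = 0 := by
  classical
  obtain ⟨-, hred, W₀, V, T, _, _, u, v, V', hpot, hcyc, hkk, hV, hV', hRE⟩ := hm
  have a1 : ∀ k : Fin 3, k + 1 + 1 = k + 2 := by decide
  have a2 : ∀ k : Fin 3, k + 2 + 1 = k := by decide
  have a3 : ∀ k : Fin 3, k + 1 ≠ k := by decide
  have a4 : ∀ k : Fin 3, k + 2 ≠ k := by decide
  have a5 : ∀ k i : Fin 3, i ≠ k → i + 1 ≠ k → i = k + 1 := by decide
  have a6 : ∀ k i : Fin 3, i + 1 = k → i = k + 2 := by decide
  have a7 : ∀ k : Fin 3, k + 1 ≠ k + 2 := by decide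
  -- no short words
  have hshort : ∀ j i w, w.length ≤ 1 → V.c j i w = 0 := by
    intro j i w hw
    by_contra hc
    have hmem := V.supp j i w hc
    rw [premut_short hV j i w (by omega)] at hc
    cases w with
    | nil =>
      have := (hpot j i [] hc).2
      exact this rfl
    | cons c w =>
      cases w with
      | cons d w => simp at hw
      | nil =>
        have hji : j = i := by
          cases hg : unfoldWord markov k [c] with
          | none => rw [hg] at hc; exact absurd rfl hc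
          | some x => rw [hg] at hc; exact (hpot j i x hc).1
        have h2 : Quiv.IsPath _ ([] ++ [c]) j i := hmem
        exact premut_noLoops k c (h2.last.trans (hji.symm.trans hmem.head.symm))
  -- the vector
  obtain ⟨Y, hY⟩ : ∃ Y : (markov.premut k).A → ℂ,
      Y = Sum.elim (fun a => y a.1.2) (fun _ => 0) := ⟨_, rfl⟩
  have hYz := nondeg_step (premut_noLoops k) hshort hQ' hred hV' hRE (k + 2) (k + 1)
    (premut_card k) Y ?_ ?_
  · intro r
    have := hYz (Sum.inl ⟨(k + 1, r), ⟨a3 k, by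
      show k + 1 + 1 ≠ k
      rw [a1]; exact a4 k⟩⟩)
    rw [hY] at this
    exact this
  · rintro (⟨⟨i, r⟩, h1, h2⟩ | α) hα
    · exfalso
      apply hα
      have : i = k + 1 := a5 k i h1 h2
      subst this
      exact ⟨a1 k, rfl⟩
    · rw [hY]; rfl
  · rintro (⟨⟨i, r⟩, h1, h2⟩ | ⟨⟨⟨i, r'⟩, hb⟩, ⟨⟨j, r⟩, ha⟩⟩ | ⟨⟨i, r⟩, h⟩) ht hs
    · exfalso
      have h3 : i = k + 1 := a5 k i h1 h2
      subst h3
      exact absurd (hs : k + 1 = k + 2) (a7 k)
    · have hb' : i = k := hb
      have ha' : j = k + 2 := a6 k j ha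
      subst hb'
      subst ha'
      rw [hY]
      have key : ∀ r'', pair2 (toCPA V).1
          (Sum.inl ⟨(i + 1, r''), ⟨a3 i, by
            show i + 1 + 1 ≠ i
            rw [a1]; exact a4 i⟩⟩)
          (Sum.inr (Sum.inl (⟨(i, r'), hb⟩, ⟨(i + 2, r), ha⟩))) =
          tri W.toM (mk (i + 1) r'') (mk i r') (mk (i + 2) r) := by
        intro r''
        have e := tri_cycEq (cycEq_of hcyc) (c₀ := mk (i + 1) r'') (c₁ := mk i r')
          (c₂ := mk (i + 2) r) (by simp) (by simp [a2]) (by simp [a1])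
        rw [toCPA_coe, toCPA_coe] at e
        rw [e]
        unfold pair2 tri
        rw [toCPA_apply, toCPA_apply, premut_short hV _ _ _ le_rfl, premut_short hV _ _ _ le_rfl]
        have z : W₀.toM (markov.t (mk (i + 2) r)) (markov.t (mk (i + 2) r))
            [mk (i + 2) r, mk (i + 1) r'', mk i r'] = 0 := by
          have : markov.t (mk (i + 2) r) = i := a2 i
          rw [this]
          exact hkk _
        rw [z, add_zero]
        rfl
      have hsum : ∀ f : (markov.premut i).A → ℂ, ∑ α, Sum.elim (fun a => y a.1.2) (fun _ => 0) α *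
          f α = ∑ r'', y r'' * f (Sum.inl ⟨(i + 1, r''), ⟨a3 i, by
            show i + 1 + 1 ≠ i
            rw [a1]; exact a4 i⟩⟩) := by
        intro f
        symm
        refine Finset.sum_of_injOn (fun r'' => Sum.inl ⟨(i + 1, r''), ⟨a3 i, by
            show i + 1 + 1 ≠ i
            rw [a1]; exact a4 i⟩⟩) ?_ ?_ ?_ ?_
        · intro x _ y _ hxy
          have h := Sum.inl_injective hxy
          exact congrArg (fun z => z.1.2) h
        · intro x _; simp
        · rintro (⟨⟨i', r⟩, h1, h2⟩ | α) _ hα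
          · exfalso
            apply hα
            have h3 : i' = i + 1 := a5 i i' h1 h2
            subst h3
            exact ⟨r, by simp, rfl⟩
          · simp
        · intro x _; rfl
      refine (hsum _).trans ?_
      rw [← H r' r]
      exact Finset.sum_congr rfl fun r'' _ => by rw [key]
    · exfalso
      rcases h with h | h
      · have h' : i = k := h
        subst h'
        exact absurd (ht : i = i + 1) (a3 i).symm
      · have h' : i + 1 = k := h
        exact absurd ((hs : i + 1 = k + 2).symm.trans h') (a4 k)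

end Pool.Agent.TH14.CC
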