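import Pool.Agent.TH14.CC.RE

/-!
A non-degeneracy condition at the level of the quadratic part of the premutated potential.
-/

namespace Pool.Agent.TH14.CC

open Finset Quiv

variable {n : ℕ}

section

variable {Q1 Q2 : Quiv n} (φ : Q1.CPA ≃ₐ[ℂ] Q2.CPA) (hφ : ∀ i, φ (Q1.idem i) = Q2.idem i)

include hφ

theorem pair2_map (hA : ∀ F : Q1.CPA, Aug F → Aug (φ F)) {W : Q1.CPA}
    (hW : ∀ j i w, w.length ≤ 1 → W.1 j i w = 0) (β β' : Q2.A) (h1 : Q2.s β = Q2.t β')
    (h2 : Q2.t β = Q2.s β') :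
    pair2 (φ W).1 β β' = ∑ α, ∑ α', lin φ β α * lin φ β' α' * pair2 W.1 α α' := by
  unfold pair2
  have e1 := quadratic_part φ hφ hA hW β β' h1
  have e2 := quadratic_part φ hφ hA hW β' β h2.symm
  rw [← h2] at e1
  rw [← h1] at e2
  rw [e1, e2]
  rw [Finset.sum_comm (f := fun α α' => W.1 (Q1.t α) (Q1.s α') [α, α'] *
    (lin φ β' α * lin φ β α')), ← Finset.sum_add_distrib]
  refine Finset.sum_congr rfl fun α _ => ?_
  rw [← Finset.sum_add_distrib]
  refine Finset.sum_congr rfl fun α' _ => ?_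
  by_cases ha : Q2.t β ≠ Q1.t α ∨ Q2.s β ≠ Q1.s α
  · rw [lin_eq_zero φ hφ ha]; ring
  by_cases hb : Q2.t β' ≠ Q1.t α' ∨ Q2.s β' ≠ Q1.s α'
  · rw [lin_eq_zero φ hφ hb]; ring
  push Not at ha hb
  have c1 : Q1.s α' = Q1.t α := by rw [← hb.2, ← h2, ha.1]
  have c2 : Q1.t α' = Q1.s α := by rw [← hb.1, ← h1, ha.2]
  rw [c1, c2]
  ring

theorem lin_mul' (hA : ∀ F : Q1.CPA, Aug F → Aug (φ F)) (α α' : Q1.A) :
    ∑ β, lin φ.symm α β * lin φ β α' = if α = α' then 1 else 0 := by
  have hφ' : ∀ i, φ.symm (Q2.idem i) = Q1.idem i := fun i => by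
    rw [← hφ i, AlgEquiv.symm_apply_apply]
  exact lin_mul φ.symm hφ' (fun F hF => aug_symm φ hφ hA hF) α α'

omit hφ in
theorem sum_sub {A : Type} [Fintype A] (p : A → Prop) [DecidablePred p] (f : A → ℂ)
    (h : ∀ a, ¬ p a → f a = 0) : ∑ a : {a // p a}, f a.1 = ∑ a, f a := by
  rw [← Finset.sum_subtype (Finset.univ.filter p) (by simp) f]
  exact Finset.sum_filter_of_ne fun a _ ha => by
    by_contra hc
    exact ha (h a hc)

theorem card_arrows (hA : ∀ F : Q1.CPA, Aug F → Aug (φ F)) (j i : Fin n) :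
    Fintype.card {β : Q2.A // Q2.t β = j ∧ Q2.s β = i} =
      Fintype.card {α : Q1.A // Q1.t α = j ∧ Q1.s α = i} := by
  classical
  have hφ' : ∀ i, φ.symm (Q2.idem i) = Q1.idem i := fun i => by
    rw [← hφ i, AlgEquiv.symm_apply_apply]
  let L : Matrix {β : Q2.A // Q2.t β = j ∧ Q2.s β = i} {α : Q1.A // Q1.t α = j ∧ Q1.s α = i} ℂ :=
    Matrix.of fun β α => lin φ β.1 α.1
  let K : Matrix {α : Q1.A // Q1.t α = j ∧ Q1.s α = i} {β : Q2.A // Q2.t β = j ∧ Q2.s β = i} ℂ :=
    Matrix.of fun α β => lin φ.symm α.1 β.1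
  refine Matrix.square_of_invertible L K ?_ ?_
  · ext β β'
    rw [Matrix.mul_apply, Matrix.one_apply]
    have h1 := lin_mul φ hφ hA β.1 β'.1
    rw [← sum_sub (fun α => Q1.t α = j ∧ Q1.s α = i)] at h1
    · simp only [L, K, Matrix.of_apply]
      rw [h1]
      exact if_congr Subtype.ext_iff.symm rfl rfl
    · intro α hα
      rw [lin_eq_zero φ hφ, zero_mul]
      rw [β.2.1, β.2.2]
      by_contra hc
      push Not at hc
      exact hα ⟨hc.1.symm, hc.2.symm⟩
  · ext α α'
    rw [Matrix.mul_apply, Matrix.one_apply]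
    have h1 := lin_mul' φ hφ hA α.1 α'.1
    rw [← sum_sub (fun β => Q2.t β = j ∧ Q2.s β = i)] at h1
    · simp only [L, K, Matrix.of_apply]
      rw [h1]
      exact if_congr Subtype.ext_iff.symm rfl rfl
    · intro β hβ
      rw [lin_eq_zero φ.symm hφ', zero_mul]
      rw [α.2.1, α.2.2]
      by_contra hc
      push Not at hc
      exact hβ ⟨hc.1.symm, hc.2.symm⟩

end

/-- Linear algebra behind the next theorem. -/
theorem core {Q1 Q2 : Quiv n} (φ : Q1.CPA ≃ₐ[ℂ] Q2.CPA)
    (hφ : ∀ i, φ (Q1.idem i) = Q2.idem i) (hl : ∀ a : Q1.A, Q1.s a ≠ Q1.t a) {W1 : Q1.CPA}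
    (hW : ∀ j i w, w.length ≤ 1 → W1.1 j i w = 0) {F2 : Q2.CPA} (hcyc : CycEq (φ W1) F2)
    (S : Q2.A → Prop) (fl : Q2.A → Q2.A) (hfS : ∀ β, S β → S (fl β))
    (hff : ∀ β, S β → fl (fl β) = β) (hft : ∀ β, S β → Q2.t (fl β) = Q2.s β)
    (hfs : ∀ β, S β → Q2.s (fl β) = Q2.t β)
    (hpair : ∀ β, S β → ∀ β₀, Q2.s β₀ = Q2.s β → Q2.t β₀ = Q2.t β →
      pair2 F2.1 β₀ (fl β) = if β₀ = β then 1 else 0)
    (j i : Fin n)
    (hac : ∀ c d, ¬ S c → ¬ S d → Q2.t c = j → Q2.s c = i → Q2.t d = i → Q2.s d = j → False)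
    (hcard : Fintype.card {α : Q1.A // Q1.t α = j ∧ Q1.s α = i} <
      Fintype.card {α : Q1.A // Q1.t α = i ∧ Q1.s α = j})
    (y : Q1.A → ℂ) (hy : ∀ α, ¬ (Q1.t α = j ∧ Q1.s α = i) → y α = 0)
    (hk : ∀ α', Q1.t α' = i → Q1.s α' = j → ∑ α, y α * pair2 W1.1 α α' = 0) :
    ∀ α, y α = 0 := by
  classical
  have hA : ∀ F : Q1.CPA, Aug F → Aug (φ F) := fun F hF => aug_map φ hφ hl hF
  have hφ' : ∀ i, φ.symm (Q2.idem i) = Q1.idem i := fun i => by
    rw [← hφ i, AlgEquiv.symm_apply_apply]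
  obtain ⟨y2, hy2d⟩ : ∃ y2 : Q2.A → ℂ, y2 = fun β => ∑ α, lin φ.symm α β * y α := ⟨_, rfl⟩
  have hy2 : ∀ β, ¬ (Q2.t β = j ∧ Q2.s β = i) → y2 β = 0 := by
    intro β hβ
    rw [hy2d]
    refine Finset.sum_eq_zero fun α _ => ?_
    by_cases hα : Q1.t α = j ∧ Q1.s α = i
    · rw [lin_eq_zero φ.symm hφ', zero_mul]
      rw [hα.1, hα.2]
      by_contra hc
      push Not at hc
      exact hβ ⟨hc.1.symm, hc.2.symm⟩
    · rw [hy α hα, mul_zero]
  have hyy2 : ∀ α, ∑ β, y2 β * lin φ β α = y α := by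
    intro α
    simp only [hy2d, Finset.sum_mul]
    rw [Finset.sum_comm]
    have : ∀ α', ∑ β, lin φ.symm α' β * y α' * lin φ β α = y α' * if α' = α then 1 else 0 := by
      intro α'
      rw [← lin_mul' φ hφ hA, Finset.mul_sum]
      exact Finset.sum_congr rfl fun β _ => by ring
    simp_rw [this]
    simp
  -- orthogonality
  have horth : ∀ β', Q2.t β' = i → Q2.s β' = j → ∑ β, y2 β * pair2 F2.1 β β' = 0 := by
    intro β' hb1 hb2
    have e1 : ∀ β, y2 β * pair2 F2.1 β β' =
        ∑ α, ∑ α', (y2 β * lin φ β α) * (lin φ β' α' * pair2 W1.1 α α') := by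
      intro β
      by_cases hβ : Q2.t β = j ∧ Q2.s β = i
      · rw [← pair2_cycEq hcyc (hβ.2.trans hb1.symm) (hβ.1.trans hb2.symm),
          pair2_map φ hφ hA hW β β' (hβ.2.trans hb1.symm) (hβ.1.trans hb2.symm),
          Finset.mul_sum]
        refine Finset.sum_congr rfl fun α _ => ?_
        rw [Finset.mul_sum]
        exact Finset.sum_congr rfl fun α' _ => by ring
      · rw [hy2 β hβ]
        simp
    have e2 : ∑ β, y2 β * pair2 F2.1 β β' =
        ∑ α, ∑ α', y α * (lin φ β' α' * pair2 W1.1 α α') := by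
      simp_rw [e1]
      rw [Finset.sum_comm]
      refine Finset.sum_congr rfl fun α _ => ?_
      rw [Finset.sum_comm]
      refine Finset.sum_congr rfl fun α' _ => ?_
      rw [← Finset.sum_mul, hyy2]
    rw [e2, Finset.sum_comm]
    refine Finset.sum_eq_zero fun α' _ => ?_
    by_cases hα' : Q1.t α' = i ∧ Q1.s α' = j
    · have := hk α' hα'.1 hα'.2
      calc ∑ α, y α * (lin φ β' α' * pair2 W1.1 α α')
          = lin φ β' α' * ∑ α, y α * pair2 W1.1 α α' := by
            rw [Finset.mul_sum]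
            exact Finset.sum_congr rfl fun α _ => by ring
        _ = 0 := by rw [this, mul_zero]
    · have h0 : lin φ β' α' = 0 := by
        apply lin_eq_zero φ hφ
        rw [hb1, hb2]
        by_contra hc
        push Not at hc
        exact hα' ⟨hc.1.symm, hc.2.symm⟩
      refine Finset.sum_eq_zero fun α _ => ?_
      rw [h0]; ring
  have hT : ∀ β, S β → Q2.t β = j → Q2.s β = i → y2 β = 0 := by
    intro β hS hp1 hp2
    have h0 := horth (fl β) ((hft β hS).trans hp2) ((hfs β hS).trans hp1)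
    rw [Finset.sum_eq_single β] at h0
    · rw [hpair β hS β rfl rfl, if_pos rfl, mul_one] at h0
      exact h0
    · intro β₀ _ hβ
      by_cases hβ' : Q2.t β₀ = j ∧ Q2.s β₀ = i
      · rw [hpair β hS β₀ (hβ'.2.trans hp2.symm) (hβ'.1.trans hp1.symm), if_neg hβ, mul_zero]
      · rw [hy2 β₀ hβ', zero_mul]
    · simp
  by_cases hc : ∃ c, ¬ S c ∧ Q2.t c = j ∧ Q2.s c = i
  · exfalso
    obtain ⟨c, hcS, hc1, hc2⟩ := hc
    have hall : ∀ β : {β : Q2.A // Q2.t β = i ∧ Q2.s β = j}, S β.1 := by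
      intro β
      by_contra hd
      exact hac c β.1 hcS hd hc1 hc2 β.2.1 β.2.2
    have hle : Fintype.card {β : Q2.A // Q2.t β = i ∧ Q2.s β = j} ≤
        Fintype.card {β : Q2.A // Q2.t β = j ∧ Q2.s β = i} := by
      refine Fintype.card_le_of_injective (fun β => ⟨fl β.1, ?_⟩) ?_
      · exact ⟨(hft _ (hall β)).trans β.2.2, (hfs _ (hall β)).trans β.2.1⟩
      · intro β β' hbb
        have h9 : fl β.1 = fl β'.1 := congrArg Subtype.val hbb
        apply Subtype.ext
        rw [← hff _ (hall β), ← hff _ (hall β'), h9]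
    rw [card_arrows φ hφ hA, card_arrows φ hφ hA] at hle
    omega
  · push Not at hc
    have hz : ∀ β, y2 β = 0 := by
      intro β
      by_cases hβ : Q2.t β = j ∧ Q2.s β = i
      · by_cases hS : S β
        · exact hT β hS hβ.1 hβ.2
        · exact absurd hβ.2 (hc β hS hβ.1)
      · exact hy2 β hβ
    intro α
    rw [← hyy2]
    exact Finset.sum_eq_zero fun β _ => by rw [hz, zero_mul]

section

variable {Q' : Quiv n} (T : Type) [Fintype T] [DecidableEq T] (u v : T → Fin n)

theorem arrow_cases (β : (Q'.addTwoCycles T u v).A) :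
    (∃ a : Q'.A, β = Sum.inl a) ∨ ∃ p, β = Q'.tw T u v p := by
  rcases β with a | p
  · exact Or.inl ⟨a, rfl⟩
  · exact Or.inr ⟨p, rfl⟩

theorem tw_inj {p q : T × Bool} (h : Q'.tw T u v p = Q'.tw T u v q) : p = q := by
  unfold tw at h
  exact Sum.inr_injective h

theorem mapM_length {A B : Type} (g : A → Option B) (w : List A) (x : List B)
    (h : w.mapM g = some x) : x.length = w.length := by
  induction w generalizing x with
  | nil =>
    rw [List.mapM_nil] at h
    have h' : some [] = some x := h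
    rw [Option.some.injEq] at h'
    rw [← h']
    rfl
  | cons a w ih =>
    rw [List.mapM_cons, Option.bind_eq_bind, Option.bind_eq_some_iff] at h
    obtain ⟨b, -, h⟩ := h
    rw [Option.bind_eq_bind, Option.bind_eq_some_iff] at h
    obtain ⟨y, hy, h⟩ := h
    have h' : some (b :: y) = some x := h
    rw [Option.some.injEq] at h'
    rw [← h', List.length_cons, List.length_cons, ih y hy]

theorem pot_short {W' : PS Q'} (hr : IsRed W') {V : PS (Q'.addTwoCycles T u v)}
    (hV : IsSumPot Q' T u v W' V) (j i : Fin n)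
    (w : List (Q'.addTwoCycles T u v).A) (hw : w.length ≤ 2) :
    (toCPA V).1 j i w =
      ∑ x : T, if u x = j ∧ u x = i ∧ w = [Q'.tw T u v (x, true), Q'.tw T u v (x, false)]
        then 1 else 0 := by
  rw [toCPA_apply, hV]
  have h0 : (w.mapM (Sum.elim (fun a => some a) (fun _ => none))).elim 0
      (fun x => W'.c j i x) = 0 := by
    cases h : (w.mapM (Sum.elim (fun a => some a) (fun _ => none))) with
    | none => rfl
    | some x =>
      have hl := mapM_length _ w x h
      show W'.c j i x = 0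
      by_contra hc
      have := hr j i x hc
      omega
  rw [h0, zero_add]
  refine Finset.sum_congr rfl fun x _ => ?_
  exact if_congr (by rw [eq_comm (a := j), eq_comm (a := i)]) rfl rfl

theorem tw_t (p : T × Bool) : (Q'.addTwoCycles T u v).t (Q'.tw T u v p) =
    if p.2 then u p.1 else v p.1 := rfl

theorem tw_s (p : T × Bool) : (Q'.addTwoCycles T u v).s (Q'.tw T u v p) =
    if p.2 then v p.1 else u p.1 := rfl

end

/-- The quadratic part of a potential whose reduced part lives on a `2`-acyclic quiver is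
non-degenerate on the smaller of the two sets of arrows between two vertices. -/
theorem nondeg_step {Q1 Q' : Quiv n} {W1 : PS Q1} (hl : ∀ a : Q1.A, Q1.s a ≠ Q1.t a)
    (hW : ∀ j i w, w.length ≤ 1 → W1.c j i w = 0) (hQ' : Q'.TwoAcyclic) {W' : PS Q'}
    (hr : IsRed W') {T : Type} [Fintype T] [DecidableEq T] {u v : T → Fin n}
    {V : PS (Q'.addTwoCycles T u v)} (hV : IsSumPot Q' T u v W' V)
    (h : RightEq W1 V) (j i : Fin n)
    (hcard : Fintype.card {α : Q1.A // Q1.t α = j ∧ Q1.s α = i} <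
      Fintype.card {α : Q1.A // Q1.t α = i ∧ Q1.s α = j})
    (y : Q1.A → ℂ) (hy : ∀ α, ¬ (Q1.t α = j ∧ Q1.s α = i) → y α = 0)
    (hk : ∀ α', Q1.t α' = i → Q1.s α' = j → ∑ α, y α * pair2 (toCPA W1).1 α α' = 0) :
    ∀ α, y α = 0 := by
  classical
  obtain ⟨φ, hφ, hcyc⟩ := h
  have hφ' : ∀ i, conj φ (Q1.idem i) = (Q'.addTwoCycles T u v).idem i := fun i => by
    rw [← toCPA_triv, conj_apply, hφ, toCPA_triv]
  have hcyc' : CycEq (conj φ (toCPA W1)) (toCPA V) := by
    rw [conj_apply]; exact cycEq_of hcyc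
  refine core (conj φ) hφ' hl hW hcyc' (fun β => ∃ p, β = Q'.tw T u v p)
    (Sum.elim (fun a => Sum.inl a) (fun p => Sum.inr (p.1, !p.2))) ?_ ?_ ?_ ?_ ?_ j i ?_ hcard y
    hy hk
  · rintro _ ⟨p, rfl⟩
    exact ⟨(p.1, !p.2), rfl⟩
  · rintro _ ⟨⟨x, b⟩, rfl⟩
    cases b <;> rfl
  · rintro _ ⟨⟨x, b⟩, rfl⟩
    cases b <;> rfl
  · rintro _ ⟨⟨x, b⟩, rfl⟩
    cases b <;> rfl
  · rintro _ ⟨⟨x, b⟩, rfl⟩ β₀ hs ht
    show pair2 _ β₀ (Q'.tw T u v (x, !b)) = _
    unfold pair2
    rw [pot_short T u v hr hV _ _ _ (by simp), pot_short T u v hr hV _ _ _ (by simp),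
      ← Finset.sum_add_distrib, Finset.sum_eq_single x]
    · rw [ht, hs, tw_t, tw_s]
      cases b
      · simp only [Bool.not_false, Bool.false_eq_true, if_false, if_true, and_self, true_and]
        rw [if_neg, zero_add]
        · refine if_congr ?_ rfl rfl
          constructor
          · intro h
            simp only [List.cons.injEq, and_true, true_and] at h
            exact h
          · rintro rfl; rfl
        · rintro ⟨_, _, h⟩
          simp only [List.cons.injEq, and_true] at h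
          have := tw_inj T u v h.2
          simp at this
      · simp only [Bool.not_true, if_false, if_true, and_self, true_and]
        rw [add_eq_left.2]
        · refine if_congr ?_ rfl rfl
          constructor
          · intro h
            simp only [List.cons.injEq, and_true] at h
            exact h
          · rintro rfl; rfl
        · rw [if_neg]
          rintro ⟨_, _, h⟩
          simp only [List.cons.injEq, and_true] at h
          have := tw_inj T u v h.1
          simp at this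
    · intro z _ hz
      rw [if_neg, if_neg, add_zero]
      · rintro ⟨_, _, h⟩
        simp only [List.cons.injEq, and_true] at h
        have := tw_inj T u v h.1
        exact hz (congrArg Prod.fst this).symm
      · rintro ⟨_, _, h⟩
        simp only [List.cons.injEq, and_true] at h
        have := tw_inj T u v h.2
        exact hz (congrArg Prod.fst this).symm
    · simp
  · intro c d hc hd h1 h2 h3 h4
    rcases arrow_cases T u v c with ⟨a, rfl⟩ | hc'
    · rcases arrow_cases T u v d with ⟨b, rfl⟩ | hd'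
      · exact hQ'.2 a b ⟨h2.trans h3.symm, h1.trans h4.symm⟩
      · exact hd hd'
    · exact hc hc'

end Pool.Agent.TH14.CC
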