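import Mathlib

/-!
Noncommutative formal power series over the complex numbers: functions on words with the
Cauchy product `(f * g) w = ∑_{w = u v} f u * g v`.
-/

namespace Pool.Agent.TH14.CC

open Finset

/-- Noncommutative formal power series in the letters `A` with complex coefficients: a series is
the function that sends a word to its coefficient. -/
def NC (A : Type) : Type := List A → ℂ

namespace NC

variable {A : Type}

noncomputable instance : AddCommGroup (NC A) := inferInstanceAs (AddCommGroup (List A → ℂ))

noncomputable instance : Module ℂ (NC A) := inferInstanceAs (Module ℂ (List A → ℂ))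

/-- The Cauchy product: `(f * g) w` is the sum of `f u * g v` over all ways of writing `w = u v`. -/
noncomputable instance : Mul (NC A) :=
  ⟨fun f g w => ∑ i ∈ range (w.length + 1), f (w.take i) * g (w.drop i)⟩

/-- The unit: the empty word has coefficient `1`, all other words have coefficient `0`. -/
noncomputable instance : One (NC A) := ⟨fun w => match w with | [] => 1 | _ :: _ => 0⟩

/-- The left derivative of a series with respect to a letter. -/
def lder (a : A) (f : NC A) : NC A := fun v => f (a :: v)

@[ext] theorem ext {f g : NC A} (h : ∀ w, f w = g w) : f = g := funext h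

@[simp] theorem add_apply (f g : NC A) (w : List A) : (f + g) w = f w + g w := rfl
@[simp] theorem sub_apply (f g : NC A) (w : List A) : (f - g) w = f w - g w := rfl
@[simp] theorem neg_apply (f : NC A) (w : List A) : (-f) w = -f w := rfl
@[simp] theorem zero_apply (w : List A) : (0 : NC A) w = 0 := rfl
@[simp] theorem smul_apply (c : ℂ) (f : NC A) (w : List A) : (c • f) w = c * f w := rfl
@[simp] theorem one_nil : (1 : NC A) [] = 1 := rfl
@[simp] theorem one_cons (a : A) (w : List A) : (1 : NC A) (a :: w) = 0 := rfl
@[simp] theorem lder_apply (a : A) (f : NC A) (w : List A) : lder a f w = f (a :: w) := rfl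
theorem lder_add (a : A) (f g : NC A) : lder a (f + g) = lder a f + lder a g := rfl
theorem lder_smul (a : A) (c : ℂ) (f : NC A) : lder a (c • f) = c • lder a f := rfl
@[simp] theorem lder_one (a : A) : lder a (1 : NC A) = 0 := rfl
@[simp] theorem lder_zero (a : A) : lder a (0 : NC A) = 0 := rfl

theorem mul_apply (f g : NC A) (w : List A) :
    (f * g) w = ∑ i ∈ range (w.length + 1), f (w.take i) * g (w.drop i) := rfl

@[simp] theorem mul_nil (f g : NC A) : (f * g) [] = f [] * g [] := by
  simp [mul_apply]

theorem mul_cons (f g : NC A) (a : A) (w : List A) :
    (f * g) (a :: w) = f [] * g (a :: w) + (lder a f * g) w := by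
  rw [mul_apply, List.length_cons, Finset.sum_range_succ', mul_apply, add_comm]
  simp

theorem lder_mul (f g : NC A) (a : A) : lder a (f * g) = f [] • lder a g + lder a f * g := by
  ext w; simp [mul_cons]

private theorem zero_mul' (g : NC A) : (0 : NC A) * g = 0 := by
  ext w; simp [mul_apply]

private theorem mul_zero' (g : NC A) : g * (0 : NC A) = 0 := by
  ext w; simp [mul_apply]

private theorem add_mul' (f g h : NC A) : (f + g) * h = f * h + g * h := by
  ext w; simp [mul_apply, add_mul, Finset.sum_add_distrib]

private theorem mul_add' (f g h : NC A) : f * (g + h) = f * g + f * h := by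
  ext w; simp [mul_apply, mul_add, Finset.sum_add_distrib]

theorem smul_mul' (c : ℂ) (f g : NC A) : (c • f) * g = c • (f * g) := by
  ext w; simp [mul_apply, mul_assoc, Finset.mul_sum]

theorem mul_smul' (c : ℂ) (f g : NC A) : f * (c • g) = c • (f * g) := by
  ext w; simp [mul_apply, mul_left_comm, Finset.mul_sum]

private theorem one_mul' (f : NC A) : 1 * f = f := by
  ext w
  cases w with
  | nil => simp
  | cons a w => simp [mul_cons, zero_mul']

private theorem mul_one' (f : NC A) : f * 1 = f := by
  ext w
  induction w generalizing f with
  | nil => simp
  | cons a w ih => simp [mul_cons, ih]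

private theorem mul_assoc' (f g h : NC A) : f * g * h = f * (g * h) := by
  ext w
  induction w generalizing f with
  | nil => simp [mul_assoc]
  | cons a w ih =>
    rw [mul_cons, mul_cons, lder_mul, add_mul', add_apply, ih, smul_mul', smul_apply, mul_cons,
      mul_nil]
    ring

noncomputable instance : Ring (NC A) :=
  { (inferInstance : AddCommGroup (NC A)) with
    mul := (· * ·)
    one := 1
    zero_mul := zero_mul'
    mul_zero := mul_zero'
    left_distrib := mul_add'
    right_distrib := add_mul'
    one_mul := one_mul'
    mul_one := mul_one'
    mul_assoc := mul_assoc' }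

noncomputable instance : Algebra ℂ (NC A) := Algebra.ofModule smul_mul' mul_smul'

@[simp] theorem sum_apply {ι : Type*} (s : Finset ι) (f : ι → NC A) (w : List A) :
    (∑ i ∈ s, f i) w = ∑ i ∈ s, f i w := by
  classical
  induction s using Finset.induction_on with
  | empty => simp
  | insert a s ha ih => simp [Finset.sum_insert ha, ih]

/-- The series with coefficient `1` at the word `w` and `0` elsewhere. -/
noncomputable def word (w : List A) : NC A := by
  classical exact fun v => if v = w then 1 else 0

theorem word_apply [DecidableEq A] (w v : List A) : word w v = if v = w then 1 else 0 := by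
  unfold word; congr

@[simp] theorem word_self (w : List A) : word w w = 1 := by
  classical simp [word_apply]

theorem lder_word_cons [DecidableEq A] (a b : A) (w : List A) :
    lder a (word (b :: w)) = if a = b then word w else 0 := by
  ext v
  rw [lder_apply, word_apply]
  by_cases h : a = b
  · subst h; simp [word_apply]
  · simp [h]

theorem word_nil : (word [] : NC A) = 1 := by
  classical
  ext v; cases v <;> simp [word_apply]

end NC

end Pool.Agent.TH14.CC
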