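import Pool.Agent.TH14.CC.Def

/-!
The completed path algebra as a subalgebra of the algebra of matrices of noncommutative power
series, and the comparison with `PS Q`.
-/

namespace Pool.Agent.TH14.CC

open Finset

variable {n : ℕ}

namespace Quiv

theorem isPath_nil (Q : Quiv n) (j i : Fin n) : Q.IsPath [] j i ↔ j = i :=
  ⟨fun h => by cases h; rfl, fun h => h ▸ IsPath.nil _⟩

theorem IsPath.head {Q : Quiv n} {a : Q.A} {w : List Q.A} {j i : Fin n}
    (h : Q.IsPath (a :: w) j i) : Q.t a = j := by cases h; rfl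

theorem IsPath.tail {Q : Quiv n} {a : Q.A} {w : List Q.A} {j i : Fin n}
    (h : Q.IsPath (a :: w) j i) : Q.IsPath w (Q.s a) i := by cases h; assumption

theorem IsPath.last {Q : Quiv n} {a : Q.A} {w : List Q.A} {j i : Fin n}
    (h : Q.IsPath (w ++ [a]) j i) : Q.s a = i := by
  induction w generalizing j with
  | nil => exact (isPath_nil _ _ _).1 h.tail
  | cons b w ih => exact ih h.tail

theorem isPath_one (Q : Quiv n) (a : Q.A) : Q.IsPath [a] (Q.t a) (Q.s a) :=
  IsPath.cons a (IsPath.nil _)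

/-- The completed path algebra of `Q`, as matrices of noncommutative power series. -/
noncomputable def CPA (Q : Quiv n) : Subalgebra ℂ (Matrix (Fin n) (Fin n) (NC Q.A)) where
  carrier := {F | ∀ j i w, F j i w ≠ 0 → Q.IsPath w j i}
  mul_mem' := by
    intro F G hF hG j i w h
    rw [Matrix.mul_apply, NC.sum_apply] at h
    exact mul_supp (Q := Q) ⟨F, hF⟩ ⟨G, hG⟩ j i w h
  add_mem' := by
    intro F G hF hG j i w h
    exact add_supp (Q := Q) ⟨F, hF⟩ ⟨G, hG⟩ j i w h
  algebraMap_mem' := by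
    intro c j i w h
    rw [Matrix.algebraMap_eq_diagonal, Matrix.diagonal_apply] at h
    split_ifs at h with hji
    · subst hji
      cases w with
      | nil => exact IsPath.nil _
      | cons a w =>
        exfalso; apply h
        rw [Pi.algebraMap_apply, Algebra.algebraMap_eq_smul_one, NC.smul_apply, NC.one_cons,
          mul_zero]
    · exact absurd rfl h

theorem mem_CPA {Q : Quiv n} {F : Matrix (Fin n) (Fin n) (NC Q.A)} :
    F ∈ Q.CPA ↔ ∀ j i w, F j i w ≠ 0 → Q.IsPath w j i := Iff.rfl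

theorem single_mem (Q : Quiv n) {j i : Fin n} {w : List Q.A} (h : Q.IsPath w j i) :
    Matrix.single j i (NC.word w) ∈ Q.CPA := by
  classical
  intro j' i' w' h'
  rw [Matrix.single_apply] at h'
  split_ifs at h' with hji
  · obtain ⟨rfl, rfl⟩ := hji
    rw [NC.word_apply] at h'
    split_ifs at h' with hw
    · subst hw; exact h
    · exact absurd rfl h'
  · exact absurd rfl h'

/-- The trivial path at the vertex `i`. -/
noncomputable def idem (Q : Quiv n) (i : Fin n) : Q.CPA :=
  ⟨Matrix.single i i (NC.word []), Q.single_mem (IsPath.nil _)⟩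

/-- The differences `a₁ a₂ ⋯ a_d - a₂ ⋯ a_d a₁`, where `a₁ a₂ ⋯ a_d` is a cyclic path. -/
def cycDiffs (Q : Quiv n) : Set (Matrix (Fin n) (Fin n) (NC Q.A)) :=
  {D | ∃ (a : Q.A) (v : List Q.A), Q.IsPath (a :: v) (Q.t a) (Q.t a) ∧
    D = Matrix.single (Q.t a) (Q.t a) (NC.word (a :: v)) -
      Matrix.single (Q.s a) (Q.s a) (NC.word (v ++ [a]))}

end Quiv

/-- Cyclic equivalence. -/
def CycEq {Q : Quiv n} (W W' : Q.CPA) : Prop :=
  ∀ N : ℕ, ∃ D ∈ Submodule.span ℂ Q.cycDiffs,
    ∀ j i w, w.length < N → (W.1 - W'.1 - D) j i w = 0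

/-- The comparison isomorphism. -/
noncomputable def toCPA {Q : Quiv n} : PS Q ≃ₐ[ℂ] Q.CPA :=
  AlgEquiv.ofLinearEquiv
    { toFun := fun F => ⟨F.toM, F.supp⟩
      invFun := fun G => ⟨fun j i w => G.1 j i w, G.2⟩
      map_add' := fun _ _ => rfl
      map_smul' := fun _ _ => rfl
      left_inv := fun _ => rfl
      right_inv := fun _ => rfl }
    (by
      apply Subtype.ext
      ext j i w
      show (if j = i ∧ w = [] then (1 : ℂ) else 0) = (1 : Matrix (Fin n) (Fin n) (NC Q.A)) j i w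
      rw [Matrix.one_apply]
      by_cases h : j = i
      · cases w <;> simp [h]
      · simp [h])
    (fun F G => Subtype.ext (PS.toM_mul F G))

theorem toCPA_coe {Q : Quiv n} (F : PS Q) : (toCPA F).1 = F.toM := rfl

theorem toCPA_apply {Q : Quiv n} (F : PS Q) (j i : Fin n) (w : List Q.A) :
    (toCPA F).1 j i w = F.c j i w := rfl

theorem toM_path {Q : Quiv n} {j i : Fin n} {w : List Q.A} (h : Q.IsPath w j i) :
    (PS.path h).toM = Matrix.single j i (NC.word w) := by
  classical
  ext j' i' w'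
  rw [Matrix.single_apply]
  show (if j' = j ∧ i' = i ∧ w' = w then (1 : ℂ) else 0) = _
  by_cases h1 : j = j' ∧ i = i'
  · rw [if_pos h1, NC.word_apply]
    exact if_congr ⟨fun h => h.2.2, fun h => ⟨h1.1.symm, h1.2.symm, h⟩⟩ rfl rfl
  · rw [if_neg h1, if_neg (fun h => h1 ⟨h.1.symm, h.2.1.symm⟩)]
    rfl

theorem toCPA_triv {Q : Quiv n} (i : Fin n) : toCPA (Q.triv i) = Q.idem i :=
  Subtype.ext (toM_path (Quiv.IsPath.nil i))

theorem cycEq_of {Q : Quiv n} {W W' : PS Q} (h : CycEquiv W W') : CycEq (toCPA W) (toCPA W') := by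
  intro N
  obtain ⟨D, hD, hw⟩ := h N
  refine ⟨(toCPA D).1, ?_, fun j i w hlt => ?_⟩
  · have h1 : D ∈ (Submodule.span ℂ Q.cycDiffs).comap
        (Q.CPA.toSubmodule.subtype ∘ₗ (toCPA (Q := Q)).toLinearMap) := by
      refine Submodule.span_le.2 ?_ hD
      rintro _ ⟨h, h'⟩
      rename_i i j a v
      refine Submodule.subset_span ⟨a, v, ?_, ?_⟩
      · have := h.head; subst this; exact h
      · show (toCPA (PS.path h - PS.path h')).1 = _
        rw [map_sub, AddSubgroupClass.coe_sub, toCPA_coe, toCPA_coe, toM_path, toM_path, h.head,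
          h'.last]
    exact h1
  · have := hw j i w hlt
    have e : toCPA (W - W' - D) = toCPA W - toCPA W' - toCPA D := by rw [map_sub, map_sub]
    have e2 : (toCPA W - toCPA W' - toCPA D).1 = (toCPA W).1 - (toCPA W').1 - (toCPA D).1 := rfl
    rw [← e2, ← e]
    exact this

/-- The transported isomorphism. -/
noncomputable def conj {Q Q' : Quiv n} (φ : PS Q ≃ₐ[ℂ] PS Q') : Q.CPA ≃ₐ[ℂ] Q'.CPA :=
  toCPA.symm.trans (φ.trans toCPA)

theorem conj_apply {Q Q' : Quiv n} (φ : PS Q ≃ₐ[ℂ] PS Q') (F : PS Q) :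
    conj φ (toCPA F) = toCPA (φ F) := by
  unfold conj
  rw [AlgEquiv.trans_apply, AlgEquiv.symm_apply_apply, AlgEquiv.trans_apply]

end Pool.Agent.TH14.CC
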