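import Pool.Agent.TH14.CC.QP

/-!
Isomorphisms of completed path algebras fixing the trivial paths: action on the linear and on the
quadratic parts.
-/

namespace Pool.Agent.TH14.CC

open Finset

variable {n : ℕ}

namespace Quiv

variable {Q : Quiv n}

/-- The element of the completed path algebra given by an arrow. -/
noncomputable def arr (Q : Quiv n) (a : Q.A) : Q.CPA :=
  ⟨Matrix.single (Q.t a) (Q.s a) (NC.word [a]), Q.single_mem (isPath_one Q a)⟩

theorem coe_idem (i : Fin n) : (Q.idem i).1 = Matrix.single i i 1 := by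
  simp [idem, NC.word_nil]

theorem coe_arr (a : Q.A) : (Q.arr a).1 = Matrix.single (Q.t a) (Q.s a) (NC.word [a]) := rfl

theorem nil_eq_zero (F : Q.CPA) {j i : Fin n} (h : j ≠ i) : F.1 j i [] = 0 := by
  by_contra hc; exact h ((isPath_nil _ _ _).1 (F.2 j i [] hc))

theorem cons_eq_zero (F : Q.CPA) {j i : Fin n} {a : Q.A} {w : List Q.A} (h : Q.t a ≠ j) :
    F.1 j i (a :: w) = 0 := by
  by_contra hc; exact h (F.2 j i _ hc).head

theorem single_eq_zero (F : Q.CPA) {j i : Fin n} {a : Q.A} (h : Q.t a ≠ j ∨ Q.s a ≠ i) :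
    F.1 j i [a] = 0 := by
  by_contra hc
  have : Q.IsPath ([] ++ [a]) j i := F.2 j i _ hc
  rcases h with h | h
  · exact h this.head
  · exact h this.last

/-- no constant terms -/
def Aug (F : Q.CPA) : Prop := ∀ i, F.1 i i [] = 0

theorem Aug.nil {F : Q.CPA} (h : Aug F) (j i : Fin n) : F.1 j i [] = 0 := by
  rcases eq_or_ne j i with rfl | hji
  · exact h _
  · exact nil_eq_zero F hji

theorem mul_entry (F G : Q.CPA) (j i : Fin n) : (F * G).1 j i = ∑ l, F.1 j l * G.1 l i := by
  rw [MulMemClass.coe_mul, Matrix.mul_apply]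

theorem Aug.mul_left {F : Q.CPA} (h : Aug F) (G : Q.CPA) : Aug (F * G) := by
  intro i
  rw [mul_entry, NC.sum_apply]
  exact Finset.sum_eq_zero fun l _ => by rw [NC.mul_nil, h.nil, zero_mul]

theorem Aug.add {F G : Q.CPA} (h : Aug F) (h' : Aug G) : Aug (F + G) := by
  intro i
  show (F.1 + G.1) i i [] = 0
  rw [Matrix.add_apply, NC.add_apply, h i, h' i, add_zero]

theorem aug_zero : Aug (0 : Q.CPA) := fun _ => rfl

theorem aug_sum {ι : Type*} (s : Finset ι) (F : ι → Q.CPA) (h : ∀ x ∈ s, Aug (F x)) :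
    Aug (∑ x ∈ s, F x) := by
  classical
  induction s using Finset.induction_on with
  | empty => exact aug_zero
  | insert a s ha ih =>
    rw [Finset.sum_insert ha]
    exact (h a (Finset.mem_insert_self _ _)).add
      (ih fun x hx => h x (Finset.mem_insert_of_mem hx))

theorem aug_arr (a : Q.A) : Aug (Q.arr a) := by
  classical
  intro i
  rw [coe_arr, Matrix.single_apply]
  split_ifs
  · rw [NC.word_apply]; simp
  · rfl

/-- The left derivative. -/
noncomputable def ld (a : Q.A) (F : Q.CPA) : Q.CPA :=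
  ⟨fun l i => if l = Q.s a then NC.lder a (F.1 (Q.t a) i) else 0, by
    intro l i w h
    dsimp only at h
    split_ifs at h with hl
    · subst hl
      exact (F.2 _ _ _ h).tail
    · exact absurd rfl h⟩

theorem ld_apply (a : Q.A) (F : Q.CPA) (l i : Fin n) (w : List Q.A) :
    (ld a F).1 l i w = if l = Q.s a then F.1 (Q.t a) i (a :: w) else 0 := by
  unfold ld
  dsimp only
  split_ifs <;> rfl

theorem decomp {F : Q.CPA} (h : Aug F) : F = ∑ a, Q.arr a * ld a F := by
  classical
  apply Subtype.ext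
  ext j i w
  have h1 : (∑ a, Q.arr a * ld a F).1 j i w = ∑ a, (Q.arr a * ld a F).1 j i w := by
    rw [AddSubmonoidClass.coe_finsetSum, Matrix.sum_apply, NC.sum_apply]
  rw [h1]
  have h2 : ∀ a, (Q.arr a * ld a F).1 j i w =
      if Q.t a = j then (NC.word [a] * NC.lder a (F.1 (Q.t a) i)) w else 0 := by
    intro a
    rw [mul_entry, NC.sum_apply, Finset.sum_eq_single (Q.s a)]
    · rw [coe_arr, Matrix.single_apply]
      by_cases hj : Q.t a = j
      · simp [hj, ld]
      · simp [hj]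
    · intro l _ hl
      rw [coe_arr, Matrix.single_apply, if_neg (fun h => hl h.2.symm)]
      simp
    · simp
  simp_rw [h2]
  cases w with
  | nil =>
    rw [h.nil, Finset.sum_eq_zero]
    intro a _
    split_ifs
    · rw [NC.mul_nil, NC.word_apply]; simp
    · rfl
  | cons b w =>
    rw [Finset.sum_eq_single b]
    · split_ifs with hb
      · subst hb
        rw [NC.mul_cons, NC.lder_word_cons, if_pos rfl, NC.word_nil, one_mul, NC.word_apply]
        simp
      · exact cons_eq_zero F hb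
    · intro a _ hab
      split_ifs
      · rw [NC.mul_cons, NC.lder_word_cons, if_neg (Ne.symm hab), zero_mul, NC.word_apply]
        simp
      · rfl
    · simp

theorem corner_arr (a : Q.A) : Q.idem (Q.t a) * Q.arr a * Q.idem (Q.s a) = Q.arr a := by
  apply Subtype.ext
  rw [MulMemClass.coe_mul, MulMemClass.coe_mul, coe_idem, coe_idem, coe_arr]
  simp

theorem corner_entry (F : Q.CPA) (j i j' i' : Fin n) :
    (Q.idem j * F * Q.idem i).1 j' i' = if j' = j ∧ i' = i then F.1 j i else 0 := by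
  classical
  rw [MulMemClass.coe_mul, MulMemClass.coe_mul, coe_idem, coe_idem]
  split_ifs with h
  · obtain ⟨rfl, rfl⟩ := h
    simp
  · by_cases hi : i' = i
    · subst hi
      have hj : j' ≠ j := fun hj => h ⟨hj, rfl⟩
      simp [Matrix.single_mul_apply_of_ne, hj]
    · simp [Matrix.mul_single_apply_of_ne, hi]

end Quiv

open Quiv

section Iso

variable {Q1 Q2 : Quiv n} (φ : Q1.CPA ≃ₐ[ℂ] Q2.CPA) (hφ : ∀ i, φ (Q1.idem i) = Q2.idem i)

/-- the linear part of an isomorphism -/
noncomputable def lin (β : Q2.A) (α : Q1.A) : ℂ := (φ (Q1.arr α)).1 (Q2.t β) (Q2.s β) [β]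

include hφ

theorem map_arr_entry (α : Q1.A) (j i : Fin n) :
    (φ (Q1.arr α)).1 j i =
      if j = Q1.t α ∧ i = Q1.s α then (φ (Q1.arr α)).1 (Q1.t α) (Q1.s α) else 0 := by
  conv_lhs => rw [← corner_arr α, map_mul, map_mul, hφ, hφ, corner_entry]

theorem lin_eq_zero {β : Q2.A} {α : Q1.A} (h : Q2.t β ≠ Q1.t α ∨ Q2.s β ≠ Q1.s α) :
    lin φ β α = 0 := by
  unfold lin
  rw [map_arr_entry φ hφ, if_neg (by tauto)]
  rfl

theorem aug_map (hl : ∀ a : Q1.A, Q1.s a ≠ Q1.t a) {F : Q1.CPA} (h : Aug F) : Aug (φ F) := by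
  rw [decomp h, map_sum]
  refine aug_sum _ _ fun a _ => ?_
  rw [map_mul]
  refine Aug.mul_left ?_ _
  intro i
  rw [map_arr_entry φ hφ, if_neg]
  · rfl
  · rintro ⟨h1, h2⟩
    exact hl a (h2.symm.trans h1)

omit hφ in
theorem const_sub {Q : Quiv n} (F : Q.CPA) : Aug (F - ∑ i, F.1 i i [] • Q.idem i) := by
  classical
  intro j
  have : (F - ∑ i, F.1 i i [] • Q.idem i).1 j j [] =
      F.1 j j [] - ∑ i, F.1 i i [] * (Q.idem i).1 j j [] := by
    rw [AddSubgroupClass.coe_sub, Matrix.sub_apply, NC.sub_apply,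
      AddSubmonoidClass.coe_finsetSum, Matrix.sum_apply, NC.sum_apply]
    rfl
  rw [this, Finset.sum_eq_single j]
  · rw [coe_idem, Matrix.single_apply_same, NC.one_nil, mul_one, sub_self]
  · intro i _ hi
    rw [coe_idem, Matrix.single_apply, if_neg (fun h => hi h.1)]
    simp
  · simp

theorem const_map (hA : ∀ F : Q1.CPA, Aug F → Aug (φ F)) (F : Q1.CPA) (j : Fin n) :
    (φ F).1 j j [] = F.1 j j [] := by
  classical
  have h := hA _ (const_sub F) j
  rw [map_sub, map_sum] at h
  simp only [map_smul, hφ] at h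
  have : (φ F - ∑ i, F.1 i i [] • Q2.idem i).1 j j [] =
      (φ F).1 j j [] - ∑ i, F.1 i i [] * (Q2.idem i).1 j j [] := by
    rw [AddSubgroupClass.coe_sub, Matrix.sub_apply, NC.sub_apply,
      AddSubmonoidClass.coe_finsetSum, Matrix.sum_apply, NC.sum_apply]
    rfl
  rw [this, Finset.sum_eq_single j] at h
  · rw [coe_idem, Matrix.single_apply_same, NC.one_nil, mul_one, sub_eq_zero] at h
    exact h
  · intro i _ hi
    rw [coe_idem, Matrix.single_apply, if_neg (fun h => hi h.1)]
    simp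
  · simp

theorem aug_symm (hA : ∀ F : Q1.CPA, Aug F → Aug (φ F)) {G : Q2.CPA} (h : Aug G) :
    Aug (φ.symm G) := by
  intro j
  rw [← const_map φ hφ hA, AlgEquiv.apply_symm_apply]
  exact h j

theorem linear_part (hA : ∀ F : Q1.CPA, Aug F → Aug (φ F)) {F : Q1.CPA} (h : Aug F)
    (β : Q2.A) :
    (φ F).1 (Q2.t β) (Q2.s β) [β] = ∑ α, F.1 (Q1.t α) (Q1.s α) [α] * lin φ β α := by
  classical
  have h0 : (φ F).1 (Q2.t β) (Q2.s β) [β] =
      ∑ α, (φ (Q1.arr α) * φ (ld α F)).1 (Q2.t β) (Q2.s β) [β] := by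
    conv_lhs => rw [decomp h]
    rw [map_sum, AddSubmonoidClass.coe_finsetSum, Matrix.sum_apply, NC.sum_apply]
    simp_rw [map_mul]
  rw [h0]
  refine Finset.sum_congr rfl fun α _ => ?_
  rw [mul_entry, NC.sum_apply, Finset.sum_eq_single (Q2.s β)]
  · rw [NC.mul_cons, (hA _ (aug_arr α)).nil, zero_mul, zero_add, NC.mul_nil, NC.lder_apply,
      const_map φ hφ hA, ld_apply]
    split_ifs with hs
    · rw [hs]
      rw [mul_comm]
      congr 1
      unfold lin
      rw [hs]
    · rw [lin_eq_zero φ hφ (Or.inr hs), mul_zero, mul_zero]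
  · intro l _ hl
    rw [NC.mul_cons, (hA _ (aug_arr α)).nil, zero_mul, zero_add, NC.mul_nil, NC.lder_apply,
      single_eq_zero _ (Or.inr hl.symm), zero_mul]
  · simp

theorem quadratic_part (hA : ∀ F : Q1.CPA, Aug F → Aug (φ F)) {W : Q1.CPA}
    (hW : ∀ j i w, w.length ≤ 1 → W.1 j i w = 0) (β β' : Q2.A) (hβ : Q2.s β = Q2.t β') :
    (φ W).1 (Q2.t β) (Q2.s β') [β, β'] =
      ∑ α, ∑ α', W.1 (Q1.t α) (Q1.s α') [α, α'] * (lin φ β α * lin φ β' α') := by
  classical
  have hAW : Aug W := fun i => hW i i [] (by simp)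
  have h0 : (φ W).1 (Q2.t β) (Q2.s β') [β, β'] =
      ∑ α, (φ (Q1.arr α) * φ (ld α W)).1 (Q2.t β) (Q2.s β') [β, β'] := by
    conv_lhs => rw [decomp hAW]
    rw [map_sum, AddSubmonoidClass.coe_finsetSum, Matrix.sum_apply, NC.sum_apply]
    simp_rw [map_mul]
  rw [h0]
  refine Finset.sum_congr rfl fun α _ => ?_
  have hAl : Aug (ld α W) := fun i => by
    rw [ld_apply]
    split_ifs
    · exact hW _ _ _ (by simp)
    · rfl
  rw [mul_entry, NC.sum_apply, Finset.sum_eq_single (Q2.s β)]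
  · rw [NC.mul_cons, (hA _ (aug_arr α)).nil, zero_mul, zero_add, NC.mul_cons, NC.mul_nil,
      (hA _ hAl).nil, mul_zero, add_zero, NC.lder_apply, hβ, linear_part φ hφ hA hAl,
      Finset.mul_sum]
    refine Finset.sum_congr rfl fun α' _ => ?_
    have : (φ (Q1.arr α)).1 (Q2.t β) (Q2.t β') [β] = lin φ β α := by
      unfold lin; rw [hβ]
    rw [this, ld_apply]
    split_ifs with hs
    · ring
    · have : W.1 (Q1.t α) (Q1.s α') [α, α'] = 0 := by
        by_contra hc
        exact hs (W.2 _ _ _ hc).tail.head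
      rw [this]; ring
  · intro l _ hl
    rw [NC.mul_cons, (hA _ (aug_arr α)).nil, zero_mul, zero_add, NC.mul_cons, NC.mul_nil,
      (hA _ hAl).nil, mul_zero, add_zero, NC.lder_apply,
      single_eq_zero _ (Or.inr hl.symm), zero_mul]
  · simp

/-- The linear parts of an isomorphism and of its inverse are inverse to each other. -/
theorem lin_mul (hA : ∀ F : Q1.CPA, Aug F → Aug (φ F)) (β β' : Q2.A) :
    ∑ α, lin φ β α * lin φ.symm α β' = if β = β' then 1 else 0 := by
  classical
  have h := linear_part φ hφ hA (F := φ.symm (Q2.arr β')) (aug_symm φ hφ hA (aug_arr β')) β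
  rw [AlgEquiv.apply_symm_apply, coe_arr, Matrix.single_apply] at h
  rw [show (∑ α, lin φ β α * lin φ.symm α β') =
    ∑ α, (φ.symm (Q2.arr β')).1 (Q1.t α) (Q1.s α) [α] * lin φ β α from
    Finset.sum_congr rfl fun α _ => mul_comm _ _, ← h]
  by_cases hb : β = β'
  · subst hb
    simp
  · rw [if_neg hb]
    split_ifs
    · rw [NC.word_apply, if_neg (by simpa using hb)]
    · rfl

end Iso

/-- The symmetrized coefficient at a `2`-cycle. -/
def pair2 {Q : Quiv n} (F : Matrix (Fin n) (Fin n) (NC Q.A)) (β β' : Q.A) : ℂ :=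
  F (Q.t β) (Q.t β) [β, β'] + F (Q.s β) (Q.s β) [β', β]

theorem pair2_cycDiff {Q : Quiv n} {β β' : Q.A} (h1 : Q.s β = Q.t β') (h2 : Q.t β = Q.s β')
    {D : Matrix (Fin n) (Fin n) (NC Q.A)} (hD : D ∈ Submodule.span ℂ Q.cycDiffs) :
    pair2 D β β' = 0 := by
  classical
  induction hD using Submodule.span_induction with
  | mem D hD =>
    obtain ⟨a, v, hp, rfl⟩ := hD
    simp only [pair2, Matrix.sub_apply, NC.sub_apply, Matrix.single_apply]
    have e1 : ∀ (j : Fin n) (x y : Q.A), (if Q.t a = j ∧ Q.t a = j then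
        NC.word (a :: v) else (0 : NC Q.A)) [x, y] =
        if Q.t a = j ∧ a = x ∧ v = [y] then 1 else 0 := by
      intro j x y
      by_cases hj : Q.t a = j
      · simp only [hj, and_self, if_true, true_and, NC.word_apply, List.cons.injEq]
        congr 1
        simp only [eq_iff_iff]
        tauto
      · simp [hj]
    have e2 : ∀ (j : Fin n) (x y : Q.A), (if Q.s a = j ∧ Q.s a = j then
        NC.word (v ++ [a]) else (0 : NC Q.A)) [x, y] =
        if Q.s a = j ∧ v = [x] ∧ a = y then 1 else 0 := by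
      intro j x y
      by_cases hj : Q.s a = j
      · simp only [hj, and_self, if_true, true_and, NC.word_apply]
        congr 1
        simp only [eq_iff_iff]
        constructor
        · intro h
          have : [x] ++ [y] = v ++ [a] := h
          obtain ⟨h3, h4⟩ := List.append_inj' this rfl
          simp only [List.cons.injEq, and_true] at h4
          exact ⟨h3.symm, h4.symm⟩
        · rintro ⟨rfl, rfl⟩; rfl
      · simp [hj]
    rw [e1, e1, e2, e2]
    have c1 : (Q.t a = Q.t β ∧ a = β ∧ v = [β']) ↔ (Q.s a = Q.s β ∧ v = [β'] ∧ a = β) := by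
      constructor
      · rintro ⟨_, rfl, rfl⟩; exact ⟨rfl, rfl, rfl⟩
      · rintro ⟨_, rfl, rfl⟩; exact ⟨rfl, rfl, rfl⟩
    have c2 : (Q.t a = Q.s β ∧ a = β' ∧ v = [β]) ↔ (Q.s a = Q.t β ∧ v = [β] ∧ a = β') := by
      constructor
      · rintro ⟨_, rfl, rfl⟩; exact ⟨h2.symm, rfl, rfl⟩
      · rintro ⟨_, rfl, rfl⟩; exact ⟨h1.symm, rfl, rfl⟩
    rw [if_congr c1 rfl rfl, if_congr c2 rfl rfl]
    ring
  | zero => simp [pair2]
  | add D D' _ _ ih ih' =>
    have : pair2 (D + D') β β' = pair2 D β β' + pair2 D' β β' := by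
      simp only [pair2, Matrix.add_apply, NC.add_apply]; ring
    rw [this, ih, ih', add_zero]
  | smul c D _ ih =>
    have : pair2 (c • D) β β' = c * pair2 D β β' := by
      simp only [pair2, Matrix.smul_apply, NC.smul_apply]; ring
    rw [this, ih, mul_zero]

theorem pair2_cycEq {Q : Quiv n} {F G : Q.CPA} (h : CycEq F G) {β β' : Q.A}
    (h1 : Q.s β = Q.t β') (h2 : Q.t β = Q.s β') : pair2 F.1 β β' = pair2 G.1 β β' := by
  obtain ⟨D, hD, hw⟩ := h 3
  have h0 := pair2_cycDiff h1 h2 hD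
  have a1 := hw (Q.t β) (Q.t β) [β, β'] (by simp)
  have a2 := hw (Q.s β) (Q.s β) [β', β] (by simp)
  simp only [Matrix.sub_apply, NC.sub_apply] at a1 a2
  unfold pair2 at *
  linear_combination a1 + a2 + h0

end Pool.Agent.TH14.CC
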