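import Pool.Agent.TH14.CC.Markov

/-!
A concise `2 × 2 × 2` tensor has a nonsingular slice combination; application to non-degenerate
potentials on the Markov quiver.
-/

namespace Pool.Agent.TH14.CC

open Finset Quiv

theorem tensor (w : Fin 2 → Fin 2 → Fin 2 → ℂ)
    (h0 : ∀ y : Fin 2 → ℂ, (∀ r1 r2, ∑ r, y r * w r r1 r2 = 0) → ∀ r, y r = 0)
    (h1 : ∀ y : Fin 2 → ℂ, (∀ r0 r2, ∑ r, y r * w r0 r r2 = 0) → ∀ r, y r = 0)
    (h2 : ∀ y : Fin 2 → ℂ, (∀ r0 r1, ∑ r, y r * w r0 r1 r = 0) → ∀ r, y r = 0) :
    ∃ a : Fin 2 → ℂ, (∑ r, a r * w r 0 0) * (∑ r, a r * w r 1 1) -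
      (∑ r, a r * w r 0 1) * (∑ r, a r * w r 1 0) ≠ 0 := by
  by_contra hcon
  push Not at hcon
  have d0 := hcon ![1, 0]
  have d1 := hcon ![0, 1]
  have d2 := hcon ![1, 1]
  simp only [Fin.sum_univ_two, Matrix.cons_val_zero, Matrix.cons_val_one, one_mul, zero_mul,
    add_zero, zero_add] at d0 d1 d2
  have k0 : ∀ x y : ℂ, (x * w 0 0 0 + y * w 1 0 0 = 0 → x * w 0 0 1 + y * w 1 0 1 = 0 →
      x * w 0 1 0 + y * w 1 1 0 = 0 → x * w 0 1 1 + y * w 1 1 1 = 0 → x = 0 ∧ y = 0) := by
    intro x y e1 e2 e3 e4
    have := h0 ![x, y] (by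
      intro r1 r2
      fin_cases r1 <;> fin_cases r2 <;> simpa [Fin.sum_univ_two])
    exact ⟨by simpa using this 0, by simpa using this 1⟩
  have k1 : ∀ x y : ℂ, (x * w 0 0 0 + y * w 0 1 0 = 0 → x * w 0 0 1 + y * w 0 1 1 = 0 →
      x * w 1 0 0 + y * w 1 1 0 = 0 → x * w 1 0 1 + y * w 1 1 1 = 0 → x = 0 ∧ y = 0) := by
    intro x y e1 e2 e3 e4
    have := h1 ![x, y] (by
      intro r1 r2
      fin_cases r1 <;> fin_cases r2 <;> simpa [Fin.sum_univ_two])
    exact ⟨by simpa using this 0, by simpa using this 1⟩
  have k2 : ∀ x y : ℂ, (x * w 0 0 0 + y * w 0 0 1 = 0 → x * w 0 1 0 + y * w 0 1 1 = 0 →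
      x * w 1 0 0 + y * w 1 0 1 = 0 → x * w 1 1 0 + y * w 1 1 1 = 0 → x = 0 ∧ y = 0) := by
    intro x y e1 e2 e3 e4
    have := h2 ![x, y] (by
      intro r1 r2
      fin_cases r1 <;> fin_cases r2 <;> simpa [Fin.sum_univ_two])
    exact ⟨by simpa using this 0, by simpa using this 1⟩
  clear hcon h0 h1 h2
  generalize w 0 0 0 = a at *
  generalize w 0 0 1 = b at *
  generalize w 0 1 0 = c at *
  generalize w 0 1 1 = d at *
  generalize w 1 0 0 = e at *
  generalize w 1 0 1 = f at *
  generalize w 1 1 0 = g at *
  generalize w 1 1 1 = h at *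
  have mix : a * h + d * e = b * g + c * f := by linear_combination d2 - d0 - d1
  by_cases ha : a = 0
  · subst ha
    by_cases hb : b = 0
    · subst hb
      -- A = [[0,0],[c,d]]
      have hcd : ¬ (c = 0 ∧ d = 0) := by
        rintro ⟨rfl, rfl⟩
        have := k0 1 0 (by ring) (by ring) (by ring) (by ring)
        exact one_ne_zero this.1
      by_cases he : e = 0 ∧ f = 0
      · obtain ⟨rfl, rfl⟩ := he
        have := k1 1 0 (by ring) (by ring) (by ring) (by ring)
        exact one_ne_zero this.1
      · have hch : c * h = d * g := by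
          by_contra hne
          have hne' : c * h - d * g ≠ 0 := sub_ne_zero.2 hne
          apply he
          constructor
          · apply (mul_eq_zero.1 (show (c * h - d * g) * e = 0 by
              linear_combination c * d1 - g * mix)).resolve_left hne'
          · apply (mul_eq_zero.1 (show (c * h - d * g) * f = 0 by
              linear_combination d * d1 - h * mix)).resolve_left hne'
        have := k2 (-d) c (by ring) (by ring) (by linear_combination (-1 : ℂ) * mix)
          (by linear_combination hch)
        exact hcd ⟨this.2, by simpa using this.1⟩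
    · -- b ≠ 0, so c = 0
      have hc : c = 0 := by
        have : b * c = 0 := by linear_combination -d0
        exact (mul_eq_zero.1 this).resolve_left hb
      subst hc
      have hm : d * e = b * g := by linear_combination mix
      by_cases he : e = 0
      · subst he
        have hg : g = 0 := by
          have : b * g = 0 := by linear_combination -hm
          exact (mul_eq_zero.1 this).resolve_left hb
        subst hg
        have := k2 1 0 (by ring) (by ring) (by ring) (by ring)
        exact one_ne_zero this.1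
      · have hbh : b * h = d * f := by
          have : e * (b * h - d * f) = 0 := by linear_combination b * d1 - f * hm
          exact sub_eq_zero.1 ((mul_eq_zero.1 this).resolve_left he)
        have := k1 (-d) b (by ring) (by ring) (by linear_combination (-1 : ℂ) * hm)
          (by linear_combination hbh)
        exact hb this.2
  · have hprod : (a * f - b * e) * (a * g - c * e) = 0 := by
      linear_combination (-a * a) * d1 + a * e * mix - e * e * d0
    rcases mul_eq_zero.1 hprod with h3 | h3
    · have h4 : a * h - b * g = 0 := by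
        have : a * (a * h - b * g) = 0 := by
          linear_combination a * mix + c * h3 - e * d0
        exact (mul_eq_zero.1 this).resolve_left ha
      have := k2 (-b) a (by ring) (by linear_combination d0) (by linear_combination h3)
        (by linear_combination h4)
      exact ha this.2
    · have h4 : a * h - c * f = 0 := by
        have : a * (a * h - c * f) = 0 := by
          linear_combination a * mix + b * h3 - e * d0
        exact (mul_eq_zero.1 this).resolve_left ha
      have := k1 (-c) a (by ring) (by linear_combination d0) (by linear_combination h3)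
        (by linear_combination h4)
      exact ha this.2

/-- The cubic coefficients of a potential on the Markov quiver. -/
noncomputable def cub (W : PS markov) (r0 r1 r2 : Fin 2) : ℂ :=
  tri W.toM (mk 2 r2) (mk 1 r1) (mk 0 r0)

theorem exists_generic {W : PS markov} (hW : Nondeg W) :
    ∃ a : Fin 2 → ℂ, (∑ r, a r * cub W r 0 0) * (∑ r, a r * cub W r 1 1) -
      (∑ r, a r * cub W r 0 1) * (∑ r, a r * cub W r 1 0) ≠ 0 := by
  have hk : ∀ k : Fin 3, ∃ (Q' : Quiv 3) (W' : PS Q'), IsMut k W W' ∧ Q'.TwoAcyclic := by
    intro k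
    cases hW.2 [k] with
    | cons _ h1 h2 =>
      cases h2 with
      | nil h2 => exact ⟨_, _, h1, h2⟩
  apply tensor
  · intro y hy
    obtain ⟨Q', W', h1, h2⟩ := hk 2
    refine flat 2 h1 h2 y fun r' r => ?_
    rw [← hy r r']
    refine Finset.sum_congr rfl fun r'' _ => ?_
    congr 1
    exact (tri_rot W.toM (mk 0 r'') (mk 2 r') (mk 1 r)).symm
  · intro y hy
    obtain ⟨Q', W', h1, h2⟩ := hk 0
    refine flat 0 h1 h2 y fun r' r => ?_
    rw [← hy r' r]
    refine Finset.sum_congr rfl fun r'' _ => ?_
    congr 1
    exact tri_rot W.toM (mk 2 r) (mk 1 r'') (mk 0 r')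
  · intro y hy
    obtain ⟨Q', W', h1, h2⟩ := hk 1
    refine flat 1 h1 h2 y fun r' r => ?_
    rw [← hy r r']
    rfl

end Pool.Agent.TH14.CC
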